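import Pool.Agent.V8H38.HZ.Hazard

/-!
# Hazards on a small set of variables can be avoided
-/

set_option linter.unusedSectionVars false

namespace Pool.Agent.V8H38.HZ

open Finset

variable {n : ℕ}

/-- shift of the references -/
def Gate.shift (L : ℕ) : Gate n → Gate n
  | Gate.input i => Gate.input i
  | Gate.const b => Gate.const b
  | Gate.neg a => Gate.neg (L + a)
  | Gate.conj a b => Gate.conj (L + a) (L + b)
  | Gate.disj a b => Gate.disj (L + a) (L + b)

theorem Gate.shift_eval3 (L : ℕ) (g : Gate n) (t : Fin n → Option Bool) (v : ℕ → Option Bool) :
    (g.shift L).eval3 t v = g.eval3 t fun a => v (L + a) := by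
  cases g <;> rfl

theorem Gate.shift_isBin (L : ℕ) (g : Gate n) : (g.shift L).isBin = g.isBin := by
  cases g <;> rfl

theorem vals3_pre (t : Fin n → Option Bool) (l l' : List (Gate n)) (k : ℕ) (hk : k < l.length) :
    (vals3 t (l ++ l')).getD k (some false) = (vals3 t l).getD k (some false) := by
  induction l' using List.reverseRecOn with
  | nil => simp
  | append_singleton l' g ih =>
    rw [← List.append_assoc, vals3_append, List.getD_append, ih]
    rw [vals3_length, List.length_append]
    omega

theorem vals3_last (t : Fin n → Option Bool) (l : List (Gate n)) (g : Gate n) :
    (vals3 t (l ++ [g])).getD l.length (some false) =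
      g.eval3 t fun k => (vals3 t l).getD k (some false) := by
  rw [vals3_append, List.getD_append_right _ _ _ _ (by rw [vals3_length]), vals3_length]
  simp

theorem vals3_ge (t : Fin n → Option Bool) (l : List (Gate n)) (k : ℕ) (hk : l.length ≤ k) :
    (vals3 t l).getD k (some false) = some false := by
  rw [List.getD_eq_default _ _ (by rw [vals3_length]; exact hk)]

theorem vals3_shift (t : Fin n → Option Bool) (l l' : List (Gate n)) (k : ℕ) :
    (vals3 t (l ++ l'.map (Gate.shift l.length))).getD (l.length + k) (some false) =
      (vals3 t l').getD k (some false) := by
  induction l' using List.reverseRecOn generalizing k with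
  | nil =>
    rw [vals3_ge _ _ _ (by simp), vals3_ge _ _ _ (by simp)]
  | append_singleton l' g ih =>
    rw [List.map_append, List.map_singleton, ← List.append_assoc]
    have hlen : (l ++ l'.map (Gate.shift l.length)).length = l.length + l'.length := by simp
    rcases lt_trichotomy k l'.length with hk | hk | hk
    · rw [vals3_pre _ _ _ _ (by rw [hlen]; omega), vals3_pre _ _ _ _ hk]
      exact ih k
    · rw [hk, ← hlen, vals3_last, vals3_last, Gate.shift_eval3]
      congr 1
      funext a
      exact ih a
    · rw [vals3_ge _ _ _ (by rw [List.length_append, hlen]; simp; omega),
        vals3_ge _ _ _ (by rw [List.length_append]; simp; omega)]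

/-- `(x_e AND A) OR B` -/
def comb (e : Fin n) (A B : Circ n) : Circ n :=
  ⟨(((A.gates ++ B.gates.map (Gate.shift A.gates.length)) ++ [Gate.input e]) ++
      [Gate.conj (A.gates.length + B.gates.length) A.out]) ++
      [Gate.disj (A.gates.length + B.gates.length + 1) (A.gates.length + B.out)],
    A.gates.length + B.gates.length + 2⟩

theorem comb_size (e : Fin n) (A B : Circ n) : (comb e A B).size = A.size + B.size + 2 := by
  unfold comb Circ.size
  simp only [List.countP_append, List.countP_map]
  have : (Gate.isBin ∘ Gate.shift A.gates.length : Gate n → Bool) = Gate.isBin := by
    funext g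
    exact Gate.shift_isBin _ g
  rw [this]
  simp [List.countP_cons, Gate.isBin]

theorem comb_eval3 (e : Fin n) (A B : Circ n) (hA : A.out < A.gates.length)
    (hB : B.out < B.gates.length) (t : Fin n → Option Bool) :
    (comb e A B).eval3 t = or3 (and3 (t e) (A.eval3 t)) (B.eval3 t) := by
  unfold comb Circ.eval3
  simp only
  set l := A.gates ++ B.gates.map (Gate.shift A.gates.length) with hl
  have hlen : l.length = A.gates.length + B.gates.length := by simp [hl]
  have hlen1 : (l ++ [Gate.input e]).length = A.gates.length + B.gates.length + 1 := by
    rw [List.length_append, hlen]; rfl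
  have hlen2 : ((l ++ [Gate.input e]) ++
      [Gate.conj (A.gates.length + B.gates.length) A.out]).length =
      A.gates.length + B.gates.length + 2 := by
    rw [List.length_append, hlen1]; rfl
  have e1 : (vals3 t l).getD A.out (some false) = (vals3 t A.gates).getD A.out (some false) :=
    vals3_pre _ _ _ _ hA
  have e2 : (vals3 t l).getD (A.gates.length + B.out) (some false) =
      (vals3 t B.gates).getD B.out (some false) := vals3_shift _ _ _ _
  conv_lhs => rw [← hlen2, vals3_last]
  simp only [Gate.eval3]
  rw [vals3_pre t (l ++ [Gate.input e]) _ (A.gates.length + B.out) (by rw [hlen1]; omega),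
    vals3_pre t l _ (A.gates.length + B.out) (by rw [hlen]; omega), e2]
  conv_lhs =>
    enter [1]
    rw [← hlen1, vals3_last]
  simp only [Gate.eval3]
  rw [vals3_pre t l _ A.out (by rw [hlen]; omega), e1]
  have e3 : (vals3 t (l ++ [Gate.input e])).getD (A.gates.length + B.gates.length) (some false) =
      t e := by
    rw [← hlen, vals3_last]
    rfl
  rw [e3]

/-- the variable `e` is replaced by a constant -/
def Gate.subst (e : Fin n) (b : Bool) : Gate n → Gate n
  | Gate.input i => if i = e then Gate.const b else Gate.input i
  | g => g

/-- the variable `e` is replaced by a constant -/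
def rs (e : Fin n) (b : Bool) (C : Circ n) : Circ n := ⟨C.gates.map (Gate.subst e b), C.out⟩

theorem rs_size (e : Fin n) (b : Bool) (C : Circ n) : (rs e b C).size = C.size := by
  unfold rs Circ.size
  rw [List.countP_map]
  congr 1
  funext g
  cases g with
  | input i =>
    simp only [Function.comp, Gate.subst]
    split_ifs <;> rfl
  | _ => rfl

theorem rs_vals3 (e : Fin n) (b : Bool) (t : Fin n → Option Bool) (l : List (Gate n)) :
    vals3 t (l.map (Gate.subst e b)) = vals3 (Function.update t e (some b)) l := by
  induction l using List.reverseRecOn with
  | nil => rfl
  | append_singleton l g ih =>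
    rw [List.map_append, List.map_singleton, vals3_append, vals3_append, ih]
    congr 2
    cases g with
    | input i =>
      simp only [Gate.subst]
      split_ifs with h
      · subst h
        simp [Gate.eval3]
      · simp [Gate.eval3, Function.update_of_ne h]
    | _ => rfl

theorem rs_eval3 (e : Fin n) (b : Bool) (C : Circ n) (t : Fin n → Option Bool) :
    (rs e b C).eval3 t = C.eval3 (Function.update t e (some b)) := by
  unfold rs Circ.eval3
  simp only
  rw [rs_vals3]

theorem eval3_some (C : Circ n) (w : Fin n → Bool) :
    C.eval3 (fun i => some (w i)) = some (C.eval w) := known_vals w _ _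

theorem update_some (w : Fin n → Bool) (e : Fin n) (b : Bool) :
    Function.update (fun i => some (w i)) e (some b) =
      fun i => some (Function.update w e b i) := by
  funext i
  by_cases h : i = e
  · subst h; simp
  · simp [Function.update_of_ne h]

theorem rs_eval (e : Fin n) (b : Bool) (C : Circ n) (w : Fin n → Bool) :
    (rs e b C).eval w = C.eval (Function.update w e b) := by
  have h := rs_eval3 e b C fun i => some (w i)
  rw [update_some, eval3_some, eval3_some] at h
  exact Option.some.inj h

theorem comb_eval (e : Fin n) (A B : Circ n) (hA : A.out < A.gates.length)
    (hB : B.out < B.gates.length) (w : Fin n → Bool) :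
    (comb e A B).eval w = ((w e && A.eval w) || B.eval w) := by
  have h := comb_eval3 e A B hA hB fun i => some (w i)
  rw [eval3_some, eval3_some, eval3_some] at h
  cases h1 : w e <;> cases h2 : A.eval w <;> cases h3 : B.eval w <;>
    simp [h1, h2, h3, and3, or3] at h ⊢ <;> exact h

theorem vals3_congr (t t' : Fin n → Option Bool) (l : List (Gate n))
    (h : ∀ i, Gate.input i ∈ l → t i = t' i) : vals3 t l = vals3 t' l := by
  induction l using List.reverseRecOn with
  | nil => rfl
  | append_singleton l g ih =>
    rw [vals3_append, vals3_append, ih fun i hi => h i (List.mem_append_left _ hi)]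
    congr 2
    cases g with
    | input i => exact h i (by simp)
    | _ => rfl

theorem eval3_congr (C : Circ n) (t t' : Fin n → Option Bool)
    (h : ∀ i, Gate.input i ∈ C.gates → t i = t' i) : C.eval3 t = C.eval3 t' := by
  unfold Circ.eval3
  rw [vals3_congr t t' C.gates h]

/-- **The induction.** -/
theorem small_aux (E : Finset (Fin n)) : ∀ C : Circ n, C.out < C.gates.length → MonoOn C E →
    ∃ C' : Circ n, C'.out < C'.gates.length ∧ C'.size + 2 ≤ 2 ^ E.card * (C.size + 2) ∧
      (∀ i, Gate.input i ∈ C'.gates → Gate.input i ∈ C.gates ∨ i ∈ E) ∧
      (∀ w, C'.eval w = C.eval w) ∧
      ∀ x y : Fin n → Bool, (∀ a, a ∉ E → x a = y a) → (∀ a, x a = true → y a = true) →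
        C.eval x = C.eval y → C'.eval3 (span x y) = some (C.eval x) := by
  classical
  induction E using Finset.induction_on with
  | empty =>
    intro C hC _
    refine ⟨C, hC, by simp, fun i hi => Or.inl hi, fun _ => rfl, ?_⟩
    intro x y h _ _
    have : x = y := funext fun a => h a (by simp)
    rw [← this]
    exact eval3_self C x
  | insert e E he ih =>
    intro C hC hM
    have hMb : ∀ b, MonoOn (rs e b C) E := by
      intro b x y h1 h2 h3
      rw [rs_eval] at h3 ⊢
      refine hM _ _ (fun a ha => ?_) (fun a ha => ?_) h3
      · rw [Finset.mem_insert, not_or] at ha
        rw [Function.update_of_ne ha.1, Function.update_of_ne ha.1]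
        exact h1 a ha.2
      · by_cases hae : a = e
        · subst hae
          simpa using ha
        · rw [Function.update_of_ne hae] at ha ⊢
          exact h2 a ha
    have hout : ∀ b, (rs e b C).out < (rs e b C).gates.length := by
      intro b
      simpa [rs] using hC
    obtain ⟨A, hA1, hA2, hA3, hA4, hA5⟩ := ih (rs e true C) (hout true) (hMb true)
    obtain ⟨B, hB1, hB2, hB3, hB4, hB5⟩ := ih (rs e false C) (hout false) (hMb false)
    have hno : ∀ b, Gate.input e ∉ (rs e b C).gates := by
      intro b h
      simp only [rs, List.mem_map] at h
      obtain ⟨g, _, hg⟩ := h
      cases g with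
      | input i =>
        simp only [Gate.subst] at hg
        split_ifs at hg with hi
        exact hi (Gate.input.inj hg)
      | _ => simp [Gate.subst] at hg
    have hsub : ∀ b i, Gate.input i ∈ (rs e b C).gates → Gate.input i ∈ C.gates := by
      intro b i h
      simp only [rs, List.mem_map] at h
      obtain ⟨g, hg', hg⟩ := h
      cases g with
      | input j =>
        simp only [Gate.subst] at hg
        split_ifs at hg with hi
        rw [← hg]
        exact hg'
      | _ => simp [Gate.subst] at hg
    have hAe : Gate.input e ∉ A.gates := fun h => (hA3 e h).elim (hno true) he
    have hBe : Gate.input e ∉ B.gates := fun h => (hB3 e h).elim (hno false) he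
    have hmonoe : ∀ w : Fin n → Bool, C.eval (Function.update w e false) = true →
        C.eval (Function.update w e true) = true := by
      intro w
      refine hM _ _ (fun a ha => ?_) (fun a ha => ?_)
      · rw [Finset.mem_insert, not_or] at ha
        rw [Function.update_of_ne ha.1, Function.update_of_ne ha.1]
      · by_cases hae : a = e
        · subst hae; simp
        · rw [Function.update_of_ne hae] at ha ⊢
          exact ha
    refine ⟨comb e A B, ?_, ?_, ?_, ?_, ?_⟩
    · simp [comb]
      omega
    · rw [comb_size, Finset.card_insert_of_notMem he, pow_succ]
      rw [rs_size] at hA2 hB2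
      have : 2 ^ E.card * 2 * (C.size + 2) = 2 ^ E.card * (C.size + 2) +
        2 ^ E.card * (C.size + 2) := by ring
      omega
    · intro i hi
      simp only [comb, List.mem_append, List.mem_map, List.mem_singleton] at hi
      rcases hi with (((hi | ⟨g, hg, hg'⟩) | hi) | hi) | hi
      · rcases hA3 i hi with h | h
        · exact Or.inl (hsub true i h)
        · exact Or.inr (Finset.mem_insert_of_mem h)
      · have : g = Gate.input i := by
          cases g <;> simp [Gate.shift] at hg'
          rw [hg']
        rw [this] at hg
        rcases hB3 i hg with h | h
        · exact Or.inl (hsub false i h)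
        · exact Or.inr (Finset.mem_insert_of_mem h)
      · right
        rw [Gate.input.inj hi]
        exact Finset.mem_insert_self _ _
      · exact absurd hi (by simp)
      · exact absurd hi (by simp)
    · intro w
      rw [comb_eval e A B hA1 hB1, hA4, hB4, rs_eval, rs_eval]
      cases hw : w e
      · rw [Bool.false_and, Bool.false_or]
        congr 1
        funext a
        by_cases hae : a = e
        · subst hae; simp [hw]
        · rw [Function.update_of_ne hae]
      · have h1 : Function.update w e true = w := by
          funext a
          by_cases hae : a = e
          · subst hae; simp [hw]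
          · rw [Function.update_of_ne hae]
        have h2 := hmonoe w
        rw [h1] at h2 ⊢
        rw [Bool.true_and]
        cases h3 : C.eval w
        · rw [h3] at h2
          cases h4 : C.eval (Function.update w e false)
          · rfl
          · exact absurd (h2 h4) (by decide)
        · rfl
    · intro x y h1 h2 h3
      rw [comb_eval3 e A B hA1 hB1]
      -- the values of the two parts
      have hpart : ∀ (b : Bool) (A : Circ n), Gate.input e ∉ A.gates →
          (∀ x y : Fin n → Bool, (∀ a, a ∉ E → x a = y a) → (∀ a, x a = true → y a = true) →
            (rs e b C).eval x = (rs e b C).eval y →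
            A.eval3 (span x y) = some ((rs e b C).eval x)) →
          C.eval (Function.update x e b) = C.eval (Function.update y e b) →
          A.eval3 (span x y) = some (C.eval (Function.update x e b)) := by
        intro b A hAe hA5 h
        have h4 := hA5 (Function.update x e b) (Function.update y e b) (fun a ha => ?_)
          (fun a ha => ?_) (by
            rw [rs_eval, rs_eval, Function.update_idem, Function.update_idem]
            exact h)
        · rw [rs_eval, Function.update_idem] at h4
          rw [← h4]
          refine eval3_congr A _ _ fun i hi => ?_
          have hie : i ≠ e := fun h => hAe (h ▸ hi)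
          unfold span
          rw [Function.update_of_ne hie, Function.update_of_ne hie]
        · by_cases hae : a = e
          · subst hae; simp
          · rw [Function.update_of_ne hae, Function.update_of_ne hae]
            exact h1 a (by rw [Finset.mem_insert, not_or]; exact ⟨hae, ha⟩)
        · by_cases hae : a = e
          · subst hae
            simpa using ha
          · rw [Function.update_of_ne hae] at ha ⊢
            exact h2 a ha
      have hxy : ∀ b, C.eval (Function.update x e b) = true →
          C.eval (Function.update y e b) = true := by
        intro b
        have := hMb b (Function.update x e b) (Function.update y e b) (fun a ha => ?_)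
          (fun a ha => ?_)
        · rw [rs_eval, rs_eval, Function.update_idem, Function.update_idem] at this
          exact this
        · by_cases hae : a = e
          · subst hae; simp
          · rw [Function.update_of_ne hae, Function.update_of_ne hae]
            exact h1 a (by rw [Finset.mem_insert, not_or]; exact ⟨hae, ha⟩)
        · by_cases hae : a = e
          · subst hae
            simpa using ha
          · rw [Function.update_of_ne hae] at ha ⊢
            exact h2 a ha
      have hup : ∀ (w : Fin n → Bool) (b : Bool), w e = b → Function.update w e b = w := by
        intro w b h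
        funext a
        by_cases hae : a = e
        · subst hae; simp [h]
        · rw [Function.update_of_ne hae]
      have hor1 : ∀ o, or3 o (some true) = some true := by
        intro o
        rcases o with _ | (_ | _) <;> rfl
      have hand0 : ∀ o, and3 o (some false) = some false := by
        intro o
        rcases o with _ | (_ | _) <;> rfl
      cases hfx : C.eval x
      · -- both values are zero
        rw [hfx] at h3
        cases hye : y e
        · -- the variable is zero in both inputs
          have hxe : x e = false := by
            cases h : x e
            · rfl
            · rw [h2 e h] at hye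
              exact hye
          have e1 : span x y e = some false := by simp [span, hxe, hye]
          have e2 := hpart false B hBe hB5 (by rw [hup x _ hxe, hup y _ hye, hfx, ← h3])
          rw [e1, e2, hup x _ hxe, hfx]
          rfl
        · have f1 : C.eval (Function.update y e true) = false := by rw [hup y _ hye, ← h3]
          have f2 : C.eval (Function.update x e true) = false := by
            cases h : C.eval (Function.update x e true)
            · rfl
            · rw [hxy true h] at f1
              exact f1
          have f3 : C.eval (Function.update y e false) = false := by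
            cases h : C.eval (Function.update y e false)
            · rfl
            · rw [hmonoe y h] at f1
              exact f1
          have f4 : C.eval (Function.update x e false) = false := by
            cases h : C.eval (Function.update x e false)
            · rfl
            · rw [hxy false h] at f3
              exact f3
          have e1 := hpart true A hAe hA5 (by rw [f1, f2])
          have e2 := hpart false B hBe hB5 (by rw [f3, f4])
          rw [e1, e2, f2, f4, hand0]
          rfl
      · rw [hfx] at h3
        cases hxe : x e
        · have f1 : C.eval (Function.update x e false) = true := by rw [hup x _ hxe, hfx]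
          have e2 := hpart false B hBe hB5 (by rw [f1, hxy false f1])
          rw [e2, f1, hor1]
        · have hye := h2 e hxe
          have e1 : span x y e = some true := by simp [span, hxe, hye]
          have f1 : C.eval (Function.update x e true) = true := by rw [hup x _ hxe, hfx]
          have e2 := hpart true A hAe hA5 (by rw [f1, hxy true f1])
          rw [e1, e2, f1]
          rfl

/-- **Hazards on a small set of variables can be avoided.** -/
theorem small_set (C : Circ n) (E : Finset (Fin n)) (hM : MonoOn C E) :
    ∃ C' : Circ n, C'.size ≤ 2 ^ E.card * (C.size + 2) ∧ (∀ w, C'.eval w = C.eval w) ∧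
      ∀ z π, C'.hazards E z π = 0 ∧ C'.unknown E z π ≤ 1 := by
  classical
  obtain ⟨C₀, h0, h1, h2⟩ : ∃ C₀ : Circ n, C₀.out < C₀.gates.length ∧ C₀.size ≤ C.size ∧
      ∀ w, C₀.eval w = C.eval w := by
    by_cases h : C.out < C.gates.length
    · exact ⟨C, h, le_rfl, fun _ => rfl⟩
    · refine ⟨⟨[Gate.const false], 0⟩, by simp, by simp [Circ.size, Gate.isBin], fun w => ?_⟩
      unfold Circ.eval
      rw [List.getD_eq_default (vals w C.gates) _ (by rw [vals_length]; omega)]
      rfl
  obtain ⟨C', c1, c2, _, c4, c5⟩ := small_aux E C₀ h0 (by
    intro x y a b
    rw [h2, h2]
    exact hM x y a b)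
  have hM' : MonoOn C' E := by
    intro x y a b
    rw [c4, c4, h2, h2]
    exact hM x y a b
  have hz : ∀ z π, C'.hazards E z π = 0 := by
    intro z π
    have := most_le (U := fun a b => C'.Hazard (switch E z π a) (switch E z π b)) (T := n)
      (∅ : Finset ℕ) (fun a b hab hb h => by
        exfalso
        have h3 : C₀.eval (switch E z π a) = C₀.eval (switch E z π b) := by
          have := h.2 (switch E z π b) (fun i => Or.inr rfl)
          rw [c4, c4] at this
          exact this.symm
        have h4 := c5 (switch E z π a) (switch E z π b)
          (fun i hi => by rw [switch_off _ _ _ _ _ hi, switch_off _ _ _ _ _ hi])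
          (fun i hi => switch_le E z π hab i hi) h3
        rw [h.1] at h4
        exact absurd h4 (by simp))
    simpa [Circ.hazards] using this
  refine ⟨C', ?_, fun w => (c4 w).trans (h2 w), fun z π => ⟨hz z π, ?_⟩⟩
  · have : 2 ^ E.card * (C₀.size + 2) ≤ 2 ^ E.card * (C.size + 2) := by gcongr
    omega
  · have := unknown_le_hazards C' E z π hM'
    rw [hz] at this
    exact this

end Pool.Agent.V8H38.HZ
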