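import Mathlib

/-!
# Boolean circuits and their three-valued evaluation
-/

namespace Pool.Agent.V8H38.HZ

/-- A node of a Boolean circuit with `n` inputs: an input variable, a constant, a NOT gate, or an
AND gate or an OR gate which reads two nodes. The natural numbers are the numbers (counted from
zero) of the nodes read by the gate. -/
inductive Gate (n : ℕ) : Type
  | input (i : Fin n)
  | const (b : Bool)
  | neg (a : ℕ)
  | conj (a b : ℕ)
  | disj (a b : ℕ)

/-- The negation in three-valued logic; `none` is the value unknown. -/
def not3 : Option Bool → Option Bool
  | none => none
  | some b => some (!b)

/-- The conjunction in three-valued logic. -/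
def and3 : Option Bool → Option Bool → Option Bool
  | some false, _ => some false
  | _, some false => some false
  | some true, some true => some true
  | _, _ => none

/-- The disjunction in three-valued logic. -/
def or3 : Option Bool → Option Bool → Option Bool
  | some true, _ => some true
  | _, some true => some true
  | some false, some false => some false
  | _, _ => none

namespace Gate

variable {n : ℕ}

/-- The value of a node, given the input `x` and the values `v` of the nodes it reads. -/
def eval (x : Fin n → Bool) (v : ℕ → Bool) : Gate n → Bool
  | input i => x i
  | const b => b
  | neg a => !v a
  | conj a b => v a && v b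
  | disj a b => v a || v b

/-- The three-valued value of a node, given the input `t`, some bits of which may be unknown, and
the values `v` of the nodes it reads. -/
def eval3 (t : Fin n → Option Bool) (v : ℕ → Option Bool) : Gate n → Option Bool
  | input i => t i
  | const b => some b
  | neg a => not3 (v a)
  | conj a b => and3 (v a) (v b)
  | disj a b => or3 (v a) (v b)

/-- AND gates and OR gates -/
def isBin : Gate n → Bool
  | conj _ _ => true
  | disj _ _ => true
  | _ => false

end Gate

/-- A Boolean circuit with `n` inputs: the list of its nodes, in an order in which every gate comes
after the nodes it reads, and the number of the output node. -/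
structure Circ (n : ℕ) : Type where
  /-- the nodes -/
  gates : List (Gate n)
  /-- the number of the output node -/
  out : ℕ

variable {n : ℕ}

/-- The list of the values of all nodes (a reference to a node that is not earlier reads zero). -/
def vals (x : Fin n → Bool) (l : List (Gate n)) : List Bool :=
  l.foldl (fun v g => v ++ [g.eval x fun k => v.getD k false]) []

/-- The list of the three-valued values of all nodes. -/
def vals3 (t : Fin n → Option Bool) (l : List (Gate n)) : List (Option Bool) :=
  l.foldl (fun v g => v ++ [g.eval3 t fun k => v.getD k (some false)]) []

/-- The input whose bits are known where `x` and `y` agree and unknown elsewhere. -/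
def span (x y : Fin n → Bool) (i : Fin n) : Option Bool := if x i = y i then some (x i) else none

/-- The input in which the variables in `E` at the positions less than `i` of the order `π` are
switched on and the other variables in `E` are switched off; the variables outside `E` have the
values `z`. Here `π a` is the position of the variable `a`. -/
def switch (E : Finset (Fin n)) (z : Fin n → Bool) (π : Equiv.Perm (Fin n)) (i : ℕ) (a : Fin n) :
    Bool := if a ∈ E then decide ((π a : ℕ) < i) else z a

namespace Circ

/-- The output. -/
def eval (C : Circ n) (x : Fin n → Bool) : Bool := (vals x C.gates).getD C.out false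

/-- The output of the three-valued evaluation. -/
def eval3 (C : Circ n) (t : Fin n → Option Bool) : Option Bool :=
  (vals3 t C.gates).getD C.out (some false)

/-- The size: the number of AND gates and OR gates. -/
def size (C : Circ n) : ℕ := C.gates.countP Gate.isBin

/-- The circuit has a hazard for the inputs `x` and `y`: its output is the same for all inputs whose
bits are taken from `x` and `y`, but the output of the three-valued evaluation is unknown if the bits
in which `x` and `y` differ are unknown. -/
def Hazard (C : Circ n) (x y : Fin n → Bool) : Prop :=
  C.eval3 (span x y) = none ∧ ∀ w : Fin n → Bool, (∀ i, w i = x i ∨ w i = y i) → C.eval w = C.eval x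

end Circ

/-- `S` is a set of pairwise disjoint intervals `[a, b)` of natural numbers, `a ≤ b ≤ T`, with the
property `U a b`. -/
def Disj (U : ℕ → ℕ → Prop) (T : ℕ) (S : Finset (ℕ × ℕ)) : Prop :=
  (∀ p ∈ S, p.1 ≤ p.2 ∧ p.2 ≤ T ∧ U p.1 p.2) ∧ ∀ p ∈ S, ∀ q ∈ S, p ≠ q → p.2 ≤ q.1 ∨ q.2 ≤ p.1

/-- The greatest number of pairwise disjoint intervals with the property `U`. -/
noncomputable def most (U : ℕ → ℕ → Prop) (T : ℕ) : ℕ :=
  sSup {g | ∃ S : Finset (ℕ × ℕ), S.card = g ∧ Disj U T S}

namespace Circ

/-- The variables in `E` are ordered by `π` and the other variables have the values `z`. The
greatest number of pairwise disjoint intervals of the order such that the output of the three-valued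
evaluation is unknown when the variables in the interval are unknown, the earlier ones are one and
the later ones are zero. -/
noncomputable def unknown (C : Circ n) (E : Finset (Fin n)) (z : Fin n → Bool)
    (π : Equiv.Perm (Fin n)) : ℕ :=
  most (fun a b => C.eval3 (span (switch E z π a) (switch E z π b)) = none) n

/-- The greatest number of pairwise disjoint intervals of the order for which the circuit has a
hazard. -/
noncomputable def hazards (C : Circ n) (E : Finset (Fin n)) (z : Fin n → Bool)
    (π : Equiv.Perm (Fin n)) : ℕ :=
  most (fun a b => C.Hazard (switch E z π a) (switch E z π b)) n

/-- The values of the output or of some node that is read by a NOT gate are different for the inputs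
`x` and `y`. -/
def Flip (C : Circ n) (x y : Fin n → Bool) : Prop :=
  C.eval x ≠ C.eval y ∨ ∃ k, Gate.neg k ∈ C.gates ∧
    (vals x C.gates).getD k false ≠ (vals y C.gates).getD k false

open Classical in
/-- The number of steps at which the value of the output or of a node that is read by a NOT gate
changes, when the variables in `E` are switched on one after the other. -/
noncomputable def flips (C : Circ n) (E : Finset (Fin n)) (z : Fin n → Bool)
    (π : Equiv.Perm (Fin n)) : ℕ :=
  ((Finset.range n).filter fun j => C.Flip (switch E z π j) (switch E z π (j + 1))).card

open Classical in
/-- The probability, under the distribution with the weights `D`, that the circuit is right about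
the predicate `f`. -/
noncomputable def agree (C : Circ n) (D : (Fin n → Bool) → ℝ) (f : (Fin n → Bool) → Prop) : ℝ :=
  ∑ x, if (C.eval x = true ↔ f x) then D x else 0

end Circ

end Pool.Agent.V8H38.HZ
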