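import Pool.Agent.V8H38.HZ.Order

/-!
# Unknown values, hazards, and changes of the bits read by NOT gates
-/

set_option linter.unusedSectionVars false

namespace Pool.Agent.V8H38.HZ

open Finset

variable {n : ℕ}

theorem switch_le (E : Finset (Fin n)) (z : Fin n → Bool) (π : Equiv.Perm (Fin n)) {a b : ℕ}
    (hab : a ≤ b) (i : Fin n) (h : switch E z π a i = true) : switch E z π b i = true := by
  unfold switch at h ⊢
  split_ifs at h ⊢ with hi
  · rw [decide_eq_true_iff] at h ⊢
    omega
  · exact h

theorem switch_off (E : Finset (Fin n)) (z : Fin n → Bool) (π : Equiv.Perm (Fin n)) (a : ℕ)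
    (i : Fin n) (h : i ∉ E) : switch E z π a i = z i := by
  unfold switch
  rw [if_neg h]

/-- the output is monotone in the variables in `E` -/
def MonoOn (C : Circ n) (E : Finset (Fin n)) : Prop :=
  ∀ x y : Fin n → Bool, (∀ a, a ∉ E → x a = y a) → (∀ a, x a = true → y a = true) →
    C.eval x = true → C.eval y = true

theorem proper_hazard (C : Circ n) (X : ℕ → Fin n → Bool) :
    Proper fun a b => C.Hazard (X a) (X b) := by
  intro a h
  have := h.1
  rw [eval3_self] at this
  exact absurd this (by simp)

/-- **Unknown values are hazards.** If the output is monotone, then all but one of the disjoint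
intervals with unknown output are hazards. -/
theorem unknown_le_hazards (C : Circ n) (E : Finset (Fin n)) (z : Fin n → Bool)
    (π : Equiv.Perm (Fin n)) (hC : MonoOn C E) : C.unknown E z π ≤ C.hazards E z π + 1 := by
  classical
  set X := switch E z π with hX
  have hmono : ∀ a b, a ≤ b → C.eval (X a) = true → C.eval (X b) = true := fun a b hab h =>
    hC _ _ (fun i hi => by rw [hX, switch_off _ _ _ _ _ hi, switch_off _ _ _ _ _ hi])
      (fun i hi => switch_le E z π hab i hi) h
  obtain ⟨S, hS1, hS2⟩ := exists_most (proper_unknown C X) n
  have h1 : C.unknown E z π = S.card := by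
    unfold Circ.unknown
    exact hS1.symm
  rw [h1, ← Finset.card_filter_add_card_filter_not (s := S)
    (fun p : ℕ × ℕ => C.eval (X p.1) = C.eval (X p.2))]
  refine Nat.add_le_add ?_ ?_
  · refine le_most (proper_hazard C X) ⟨?_, ?_⟩
    · intro p hp
      rw [Finset.mem_filter] at hp
      obtain ⟨h2, h3, h4⟩ := hS2.1 p hp.1
      refine ⟨h2, h3, h4, ?_⟩
      intro w hw
      have hxw : C.eval (X p.1) = true → C.eval w = true := by
        refine hC _ _ (fun i hi => ?_) (fun i hi => ?_)
        · rcases hw i with h | h
          · exact h.symm
          · rw [h, hX, switch_off _ _ _ _ _ hi, switch_off _ _ _ _ _ hi]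
        · rcases hw i with h | h
          · rw [h]; exact hi
          · rw [h]; exact switch_le E z π h2 i hi
      have hwy : C.eval w = true → C.eval (X p.2) = true := by
        refine hC _ _ (fun i hi => ?_) (fun i hi => ?_)
        · rcases hw i with h | h
          · rw [h, hX, switch_off _ _ _ _ _ hi, switch_off _ _ _ _ _ hi]
          · exact h
        · rcases hw i with h | h
          · exact switch_le E z π h2 i (h.symm.trans hi)
          · rw [← h]; exact hi
      have he := hp.2
      cases hx : C.eval (X p.1)
      · rw [hx] at he
        cases hw' : C.eval w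
        · rfl
        · rw [← he] at hwy
          exact absurd (hwy hw') (by decide)
      · exact hxw hx
    · intro p hp q hq hne
      exact hS2.2 p (Finset.mem_filter.1 hp).1 q (Finset.mem_filter.1 hq).1 hne
  · rw [Finset.card_le_one]
    intro p hp q hq
    by_contra hne
    rw [Finset.mem_filter] at hp hq
    have key : ∀ p q : ℕ × ℕ, p ∈ S → q ∈ S → C.eval (X p.1) ≠ C.eval (X p.2) →
        C.eval (X q.1) ≠ C.eval (X q.2) → ¬ p.2 ≤ q.1 := by
      intro p q hp hq hcp hcq h
      have h2 := (hS2.1 p hp).1
      have h3 := (hS2.1 q hq).1
      have h4 : C.eval (X p.2) = true := by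
        cases h5 : C.eval (X p.2)
        · exfalso
          apply hcp
          rw [h5]
          cases h6 : C.eval (X p.1)
          · rfl
          · rw [hmono _ _ h2 h6] at h5
            exact h5
        · rfl
      have h5 := hmono _ _ h h4
      exact hcq (h5.trans (hmono _ _ h3 h5).symm)
    rcases hS2.2 p hp.1 q hq.1 hne with h | h
    · exact key p q hp.1 hq.1 hp.2 hq.2 h
    · exact key q p hq.1 hp.1 hq.2 hp.2 h

/-- at most as many as there are variables -/
theorem unknown_le_card (C : Circ n) (E : Finset (Fin n)) (z : Fin n → Bool)
    (π : Equiv.Perm (Fin n)) : C.unknown E z π ≤ E.card := by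
  classical
  refine (most_le (E.image fun a => (π a : ℕ)) ?_).trans Finset.card_image_le
  intro a b hab hb h
  by_contra hno
  push Not at hno
  have he : switch E z π a = switch E z π b := by
    funext i
    unfold switch
    split_ifs with hi
    · have := hno (π i : ℕ) (Finset.mem_image_of_mem _ hi)
      rw [Bool.eq_iff_iff, decide_eq_true_iff, decide_eq_true_iff]
      constructor
      · intro h; omega
      · intro h
        by_contra h2
        have := this (by omega)
        omega
    · rfl
  rw [he, eval3_self] at h
  exact absurd h (by simp)

theorem known_pair {x y : Fin n → Bool} (hxy : ∀ i, x i = true → y i = true) (l : List (Gate n))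
    (h : ∀ k, Gate.neg k ∈ l → (vals x l).getD k false = (vals y l).getD k false) (k : ℕ) :
    can1 ((vals3 (span x y) l).getD k (some false)) = (vals y l).getD k false ∧
      can0 ((vals3 (span x y) l).getD k (some false)) = !(vals x l).getD k false := by
  induction l using List.reverseRecOn generalizing k with
  | nil => exact ⟨rfl, rfl⟩
  | append_singleton l g ih =>
    have hpre : ∀ (w : Fin n → Bool) (k : ℕ), k < l.length →
        (vals w (l ++ [g])).getD k false = (vals w l).getD k false := by
      intro w k hk
      rw [vals_append, List.getD_append _ _ _ _ (by rw [vals_length]; exact hk)]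
    have hdef : ∀ (w : Fin n → Bool) (k : ℕ), l.length ≤ k → (vals w l).getD k false = false := by
      intro w k hk
      rw [List.getD_eq_default _ _ (by rw [vals_length]; exact hk)]
    have h' : ∀ k, Gate.neg k ∈ l ++ [g] → (vals x l).getD k false = (vals y l).getD k false := by
      intro k hk
      rcases lt_or_ge k l.length with hkl | hkl
      · rw [← hpre x k hkl, ← hpre y k hkl]
        exact h k hk
      · rw [hdef x k hkl, hdef y k hkl]
    have ih' := ih fun k hk => h' k (List.mem_append_left _ hk)
    rcases lt_trichotomy k l.length with hk | hk | hk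
    · rw [hpre x k hk, hpre y k hk, vals3_append,
        List.getD_append _ _ _ _ (by rw [vals3_length]; exact hk)]
      exact ih' k
    · rw [vals3_append, vals_append, vals_append,
        List.getD_append_right _ _ _ _ (by rw [vals3_length]; omega),
        List.getD_append_right _ _ _ _ (by rw [vals_length]; omega),
        List.getD_append_right _ _ _ _ (by rw [vals_length]; omega), vals3_length, vals_length,
        vals_length, hk]
      simp only [Nat.sub_self, List.getD_cons_zero]
      cases hg : g with
      | input i =>
        simp only [Gate.eval3, Gate.eval, span]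
        have := hxy i
        cases hx : x i <;> cases hy : y i <;> simp [hx, hy, can1, can0] at this ⊢
      | const b => cases b <;> exact ⟨rfl, rfl⟩
      | neg a =>
        have e := h' a (by rw [hg]; simp)
        simp only [Gate.eval3, Gate.eval]
        rw [can1_not, can0_not, (ih' a).1, (ih' a).2, e]
        simp
      | conj a b =>
        simp only [Gate.eval3, Gate.eval]
        rw [can1_and, can0_and, (ih' a).1, (ih' a).2, (ih' b).1, (ih' b).2]
        simp
      | disj a b =>
        simp only [Gate.eval3, Gate.eval]
        rw [can1_or, can0_or, (ih' a).1, (ih' a).2, (ih' b).1, (ih' b).2]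
        simp
    · rw [List.getD_eq_default _ _ (by rw [vals3_length, List.length_append]; simpa using hk),
        List.getD_eq_default _ _ (by rw [vals_length, List.length_append]; simpa using hk),
        List.getD_eq_default _ _ (by rw [vals_length, List.length_append]; simpa using hk)]
      exact ⟨rfl, rfl⟩

/-- if nothing flips then the output is known -/
theorem flip_of_unknown (C : Circ n) {x y : Fin n → Bool} (hxy : ∀ i, x i = true → y i = true)
    (h : C.eval3 (span x y) = none) : C.Flip x y := by
  by_contra hf
  unfold Circ.Flip at hf
  push Not at hf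
  obtain ⟨h1, h2⟩ := hf
  have h3 := known_pair hxy C.gates h2 C.out
  rw [none_iff] at h
  unfold Circ.eval3 at h
  rw [h3.1, h3.2] at h
  have h4 : C.eval x = false := by
    have := h.2
    unfold Circ.eval
    simpa using this
  have h5 : C.eval y = true := h.1
  rw [h4, h5] at h1
  exact absurd h1 (by decide)

theorem flip_trans (C : Circ n) {x y z : Fin n → Bool} (h : C.Flip x z) :
    C.Flip x y ∨ C.Flip y z := by
  unfold Circ.Flip at *
  rcases h with h | ⟨k, hk, h⟩
  · by_cases h1 : C.eval x = C.eval y
    · exact Or.inr (Or.inl fun h2 => h (h1.trans h2))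
    · exact Or.inl (Or.inl h1)
  · by_cases h1 : (vals x C.gates).getD k false = (vals y C.gates).getD k false
    · exact Or.inr (Or.inr ⟨k, hk, fun h2 => h (h1.trans h2)⟩)
    · exact Or.inl (Or.inr ⟨k, hk, h1⟩)

theorem not_flip_self (C : Circ n) (x : Fin n → Bool) : ¬ C.Flip x x := by
  rintro (h | ⟨k, _, h⟩)
  · exact h rfl
  · exact h rfl

/-- the number of changes of the bits read by NOT gates and of the output is at least as large -/
theorem unknown_le_flips (C : Circ n) (E : Finset (Fin n)) (z : Fin n → Bool)
    (π : Equiv.Perm (Fin n)) : C.unknown E z π ≤ C.flips E z π := by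
  classical
  set X := switch E z π with hX
  unfold Circ.unknown Circ.flips
  refine most_le _ ?_
  intro a b hab hb h
  have hf : C.Flip (X a) (X b) := flip_of_unknown C (fun i hi => switch_le E z π hab i hi) h
  clear h
  have key : ∀ b, a ≤ b → C.Flip (X a) (X b) → ∃ j, a ≤ j ∧ j < b ∧ C.Flip (X j) (X (j + 1)) := by
    intro b hab
    induction b, hab using Nat.le_induction with
    | base => exact fun h => absurd h (not_flip_self C _)
    | succ b hb ih =>
      intro h
      rcases flip_trans C (y := X b) h with h1 | h1
      · obtain ⟨j, h2, h3, h4⟩ := ih h1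
        exact ⟨j, h2, by omega, h4⟩
      · exact ⟨b, hb, by omega, h1⟩
  obtain ⟨j, h1, h2, h3⟩ := key b hab hf
  refine ⟨j, Finset.mem_filter.2 ⟨Finset.mem_range.2 (by omega), ?_⟩, h1, h2⟩
  exact h3

end Pool.Agent.V8H38.HZ
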