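import Pool.Agent.V8H38.HZ.Main
import Pool.Agent.V8H38.HZ.Hazard
import Pool.Agent.V8H38.EV.Final

/-!
# The law of unknown values, for the half-clique language and the clique function
-/

namespace Pool.Agent.V8H38.HZ

open Finset
open Pool.Agent.V8H38.NA (Clique HalfClique)
open Pool.Agent.V8H38.EV (ReadsClique Pairs reads_clique reads_halfClique)

theorem agree_le_one {n : ℕ} {D : (Fin n → Bool) → ℝ} (hD : ∀ x, 0 ≤ D x) (hD1 : ∑ x, D x = 1)
    (C : Circ n) (f : (Fin n → Bool) → Prop) : C.agree D f ≤ 1 := by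
  classical
  rw [← hD1]
  unfold Circ.agree
  refine Finset.sum_le_sum fun x _ => ?_
  by_cases h : (C.eval x = true ↔ f x)
  · rw [if_pos h]
  · rw [if_neg h]; exact hD x

/-- the law with a parameter `lam` -/
def PairLaw (n lam μ : ℕ) (P : Finset (Fin n)) (f : (Fin n → Bool) → Prop) : Prop :=
  ∃ (D : (Fin n → Bool) → ℝ) (z : Fin n → Bool) (Q : Equiv.Perm (Fin n) → ℝ),
    (∀ x, 0 ≤ D x) ∧ ∑ x, D x = 1 ∧ (∀ x, D x ≠ 0 → ∀ a, a ∉ P → x a = z a) ∧
    (∀ π, 0 ≤ Q π) ∧ ∑ π, Q π = 1 ∧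
    ∀ C : Circ n, C.size ≤ 2 ^ μ →
      C.agree D f ≤ 1 / 2 +
        2 ^ 33 * (1 + ∑ π, Q π * (C.unknown P z π : ℝ)) * (lam ^ 5 * μ ^ 4) / P.card

theorem pairLaw_of (n v k lam μ : ℕ) (P : Finset (Fin n)) (hP : Pairs v P) (hne : P.Nonempty)
    (hvn : v * v ≤ n) (f : (Fin n → Bool) → Prop) (hf : ReadsClique v k f)
    (h1 : P.card < 2 ^ lam) (hlm : lam ≤ μ) (h2 : 270 * (lam ^ 3 * μ ^ 2) ≤ k)
    (h3 : 2 * k ≤ v) : PairLaw n lam μ P f := by
  classical
  have hN1 : 1 ≤ P.card := Finset.card_pos.2 hne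
  set N := P.card with hN
  have hN0 : (0:ℝ) < N := by exact_mod_cast hN1
  have hlam1 : 1 ≤ lam := by
    by_contra h0
    have : lam = 0 := by omega
    subst this
    simp only [pow_zero] at h1
    omega
  have hμ1 : 1 ≤ μ := hlam1.trans hlm
  by_cases hsmall : N ≤ 2 ^ 34 * (lam ^ 5 * μ ^ 4)
  · -- the bound is at least one
    have hD0 : ∀ x : Fin n → Bool, (0:ℝ) ≤ if x = (fun _ => false) then 1 else 0 := by
      intro x
      split_ifs <;> norm_num
    have hD1 : ∑ x : Fin n → Bool, (if x = (fun _ => false) then (1:ℝ) else 0) = 1 := by simp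
    refine ⟨fun x => if x = (fun _ => false) then 1 else 0, fun _ => false,
      fun π => if π = 1 then 1 else 0, hD0, hD1, ?_, fun π => by
        dsimp only
        split_ifs <;> norm_num, by simp, ?_⟩
    · intro x hx a _
      by_cases h : x = fun _ => false
      · rw [h]
      · simp only [if_neg h] at hx
        exact absurd rfl hx
    · intro C _
      have h1 := agree_le_one hD0 hD1 C f
      have h2 : (N : ℝ) ≤ 2 ^ 34 * (lam ^ 5 * μ ^ 4) := by exact_mod_cast hsmall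
      have h7 : (0:ℝ) ≤ ∑ π : Equiv.Perm (Fin n), (if π = 1 then (1:ℝ) else 0) *
          (C.unknown P (fun _ => false) π : ℝ) := Finset.sum_nonneg fun π _ => by
        split_ifs <;> positivity
      have h4 : (1:ℝ) / 2 ≤ 2 ^ 33 * (1 + ∑ π : Equiv.Perm (Fin n),
          (if π = 1 then (1:ℝ) else 0) * (C.unknown P (fun _ => false) π : ℝ)) *
            (lam ^ 5 * μ ^ 4) / (N : ℝ) := by
        rw [div_le_div_iff₀ (by norm_num) hN0]
        have h5 : (0:ℝ) ≤ lam ^ 5 * μ ^ 4 := by positivity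
        nlinarith
      linarith
  push Not at hsmall
  have hμ10 : 0 < 2 ^ 32 * (lam ^ 5 * μ ^ 4) := by positivity
  set r := N / (2 ^ 32 * (lam ^ 5 * μ ^ 4)) with hr
  have hrpos : 0 < r := Nat.div_pos (by omega) hμ10
  have h4 : 2 ^ 32 * r * (lam ^ 5 * μ ^ 4) ≤ N := by
    calc 2 ^ 32 * r * (lam ^ 5 * μ ^ 4) = r * (2 ^ 32 * (lam ^ 5 * μ ^ 4)) := by ring
      _ ≤ N := Nat.div_mul_le_self _ _
  have hnr : N ≤ 2 ^ 33 * (lam ^ 5 * μ ^ 4) * r := by
    have h6 : N < 2 ^ 32 * (lam ^ 5 * μ ^ 4) * (r + 1) := Nat.lt_mul_div_succ _ hμ10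
    have h7 : 2 ^ 32 * (lam ^ 5 * μ ^ 4) * (r + 1) ≤ 2 ^ 32 * (lam ^ 5 * μ ^ 4) * (2 * r) := by
      gcongr; omega
    have h8 : 2 ^ 32 * (lam ^ 5 * μ ^ 4) * (2 * r) = 2 ^ 33 * (lam ^ 5 * μ ^ 4) * r := by ring
    omega
  obtain ⟨D, z, Q, d1, d2, d3, p1, p2, h⟩ :=
    every_avg n v k lam μ r N P hP hvn hrpos le_rfl h1 hlm h2 h3 h4 hN1
  refine ⟨D, z, Q, d1, d2, d3, p1, p2, fun C hs => ?_⟩
  refine (h f hf C hs).trans ?_
  set A : ℝ := ∑ π, Q π * (C.unknown P z π : ℝ) with hA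
  have hA0 : 0 ≤ A := Finset.sum_nonneg fun π _ => mul_nonneg (p1 π) (Nat.cast_nonneg _)
  have hr0 : (0:ℝ) < r := by exact_mod_cast hrpos
  have h6 : (N : ℝ) ≤ 2 ^ 33 * (lam ^ 5 * μ ^ 4) * r := by exact_mod_cast hnr
  have h7 : ((1 + A) / r : ℝ) ≤ 2 ^ 33 * (1 + A) * (lam ^ 5 * μ ^ 4) / (N : ℝ) := by
    rw [div_le_div_iff₀ hr0 hN0]
    calc ((1 + A) : ℝ) * (N : ℝ) ≤
        (1 + A) * (2 ^ 33 * (lam ^ 5 * μ ^ 4) * r) := by gcongr
      _ = 2 ^ 33 * (1 + A) * (lam ^ 5 * μ ^ 4) * r := by ring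
  linarith

/-- **The law** for the predicate `f` of `n` bits and the set `P` of variables. There are a
distribution `D` of inputs which have the fixed values `z` outside of `P`, and a distribution `Q` of
orders of the variables, such that every circuit with at most `2 ^ μ` AND gates and OR gates is right
with probability at most `1 / 2 + 2 ^ 33 * (1 + H) * l ^ 5 * μ ^ 4 / |P|`, where `H` is the expected
number of disjoint intervals of the random order of `P` with unknown output, and `l` is the number of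
binary digits of `|P|`; if it is always right then the expected number of disjoint intervals with
hazards is at least `|P| / (2 ^ 34 * l ^ 5 * μ ^ 4) - 2`. -/
def UnknownBound (n μ : ℕ) (P : Finset (Fin n)) (f : (Fin n → Bool) → Prop) : Prop :=
  ∃ (D : (Fin n → Bool) → ℝ) (z : Fin n → Bool) (Q : Equiv.Perm (Fin n) → ℝ),
    (∀ x, 0 ≤ D x) ∧ ∑ x, D x = 1 ∧ (∀ x, D x ≠ 0 → ∀ a, a ∉ P → x a = z a) ∧
    (∀ π, 0 ≤ Q π) ∧ ∑ π, Q π = 1 ∧
    ∀ C : Circ n, C.size ≤ 2 ^ μ →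
      C.agree D f ≤ 1 / 2 +
        2 ^ 33 * (1 + ∑ π, Q π * (C.unknown P z π : ℝ)) *
          ((Nat.log 2 P.card + 1) ^ 5 * μ ^ 4) / P.card ∧
      ((∀ x, C.eval x = true ↔ f x) →
        (P.card : ℝ) / (2 ^ 34 * ((Nat.log 2 P.card + 1) ^ 5 * μ ^ 4)) - 2 ≤
          ∑ π, Q π * (C.hazards P z π : ℝ))

theorem mono_of_reads {n v k : ℕ} {f : (Fin n → Bool) → Prop} (hf : ReadsClique v k f)
    {x y : Fin n → Bool} (hxy : ∀ a, x a = true → y a = true) (hx : f x) : f y := by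
  rw [hf] at hx ⊢
  obtain ⟨S, h1, h2⟩ := hx
  refine ⟨S, h1, fun a ha b hb hab => ?_⟩
  have := h2 a ha b hb hab
  unfold Pool.Agent.V8H38.EV.bitAt at this ⊢
  split_ifs at this ⊢ with h
  exact hxy _ this

theorem law_of (n v k μ : ℕ) (P : Finset (Fin n)) (hP : Pairs v P) (hne : P.Nonempty)
    (hvn : v * v ≤ n) (f : (Fin n → Bool) → Prop) (hf : ReadsClique v k f)
    (hlm : Nat.log 2 P.card < μ) (h2 : 270 * ((Nat.log 2 P.card + 1) ^ 3 * μ ^ 2) ≤ k)
    (h3 : 2 * k ≤ v) : UnknownBound n μ P f := by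
  classical
  obtain ⟨D, z, Q, d1, d2, d3, p1, p2, h⟩ := pairLaw_of n v k (Nat.log 2 P.card + 1) μ P hP hne
    hvn f hf (Nat.lt_pow_succ_log_self (by norm_num) _) hlm h2 h3
  refine ⟨D, z, Q, d1, d2, d3, p1, p2, fun C hs => ?_⟩
  have h4 := h C hs
  push_cast at h4
  refine ⟨h4, fun hC => ?_⟩
  have hN0 : (0:ℝ) < P.card := by exact_mod_cast Finset.card_pos.2 hne
  have hμ0 : (0:ℝ) < μ := by exact_mod_cast (show 0 < μ by omega)
  set K : ℝ := ((Nat.log 2 P.card : ℝ) + 1) ^ 5 * (μ:ℝ) ^ 4 with hK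
  have hK0 : 0 < K := by positivity
  have h5 : C.agree D f = 1 := by
    unfold Circ.agree
    rw [← d2]
    exact Finset.sum_congr rfl fun x _ => if_pos (hC x)
  have hM : MonoOn C P := by
    intro x y _ hxy hx
    rw [hC] at hx ⊢
    exact mono_of_reads hf hxy hx
  have h6 : ∑ π, Q π * (C.unknown P z π : ℝ) ≤ 1 + ∑ π, Q π * (C.hazards P z π : ℝ) := by
    calc ∑ π, Q π * (C.unknown P z π : ℝ) ≤ ∑ π, (Q π + Q π * (C.hazards P z π : ℝ)) := by
          refine Finset.sum_le_sum fun π _ => ?_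
          have h7 : (C.unknown P z π : ℝ) ≤ (C.hazards P z π : ℝ) + 1 := by
            exact_mod_cast unknown_le_hazards C P z π hM
          have := mul_le_mul_of_nonneg_left h7 (p1 π)
          linarith
      _ = 1 + ∑ π, Q π * (C.hazards P z π : ℝ) := by rw [Finset.sum_add_distrib, p2]
  set U : ℝ := ∑ π, Q π * (C.unknown P z π : ℝ) with hU
  have h8 : (1:ℝ) / 2 ≤ 2 ^ 33 * (1 + U) * K / P.card := by
    rw [h5] at h4
    linarith
  rw [div_le_div_iff₀ (by norm_num) hN0] at h8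
  have h9 : (P.card : ℝ) / (2 ^ 34 * K) ≤ 1 + U := by
    rw [div_le_iff₀ (by positivity)]
    linarith
  linarith

/-- **The law for the clique function and all sets of pairs.** -/
theorem clique_law (v k μ : ℕ) (P : Finset (Fin (v * v))) (hP : Pairs v P)
    (hne : P.Nonempty) (hlm : Nat.log 2 P.card < μ)
    (h2 : 270 * ((Nat.log 2 P.card + 1) ^ 3 * μ ^ 2) ≤ k) (h3 : 2 * k ≤ v) :
    UnknownBound (v * v) μ P (Clique v k) :=
  law_of (v * v) v k μ P hP hne le_rfl _ (reads_clique v k) hlm h2 h3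

/-- **The law for the half-clique language and all sets of pairs.** -/
theorem halfClique_law (n μ : ℕ) (P : Finset (Fin n)) (hP : Pairs (Nat.sqrt n) P)
    (hne : P.Nonempty) (hlm : Nat.log 2 P.card < μ)
    (h2 : 600 * ((Nat.log 2 P.card + 1) ^ 3 * μ ^ 2) ≤ Nat.sqrt n) :
    UnknownBound n μ P (fun x => List.ofFn x ∈ HalfClique) := by
  refine law_of n (Nat.sqrt n) (Nat.sqrt n / 2) μ P hP hne (Nat.sqrt_le n) _
    (reads_halfClique n) hlm ?_ (Nat.mul_div_le _ 2)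
  rw [Nat.le_div_iff_mul_le (by norm_num)]
  omega

end Pool.Agent.V8H38.HZ
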