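import Pool.Agent.V8H38.HZ.Tri
import Pool.Agent.V8H38.NA.Order

/-!
# Chains, orders of the variables, and cuts
-/

set_option linter.unusedSectionVars false

namespace Pool.Agent.V8H38.HZ

open Finset

variable {n : ℕ}

open Classical in
/-- the number of steps of the chain for which the output is unknown -/
noncomputable def unknowns (C : Circ n) (X : ℕ → Fin n → Bool) (T : ℕ) : ℕ :=
  ((Finset.range T).filter fun j => C.eval3 (span (X j) (X (j + 1))) = none).card

/-- every interval of a disjoint family contains a point of a given set -/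
theorem card_le_of_points {U : ℕ → ℕ → Prop} {T : ℕ} {S : Finset (ℕ × ℕ)} (hS : Disj U T S)
    (B : Finset ℕ) (h : ∀ a b, a ≤ b → b ≤ T → U a b → ∃ j ∈ B, a ≤ j ∧ j < b) :
    S.card ≤ B.card := by
  have hex : ∀ p ∈ S, ∃ j ∈ B, p.1 ≤ j ∧ j < p.2 := by
    intro p hp
    obtain ⟨h1, h2, h3⟩ := hS.1 p hp
    exact h _ _ h1 h2 h3
  choose! f hf1 hf2 using hex
  refine Finset.card_le_card_of_injOn f hf1 ?_
  intro p hp q hq hpq
  by_contra hne
  have hp' := hf2 p hp
  have hq' := hf2 q hq
  rcases hS.2 p hp q hq hne with h | h <;> omega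

theorem most_le {U : ℕ → ℕ → Prop} {T : ℕ} (B : Finset ℕ)
    (h : ∀ a b, a ≤ b → b ≤ T → U a b → ∃ j ∈ B, a ≤ j ∧ j < b) : most U T ≤ B.card := by
  refine csSup_le ⟨0, ∅, rfl, by simp [Disj]⟩ ?_
  rintro g ⟨S, rfl, hS⟩
  exact card_le_of_points hS B h

/-- a property that does not hold for empty intervals -/
def Proper (U : ℕ → ℕ → Prop) : Prop := ∀ a, ¬ U a a

theorem point_of_proper {U : ℕ → ℕ → Prop} (hU : Proper U) {T : ℕ} (a b : ℕ) (hab : a ≤ b)
    (hb : b ≤ T) (h : U a b) : ∃ j ∈ range T, a ≤ j ∧ j < b := by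
  rcases hab.lt_or_eq with hlt | rfl
  · exact ⟨a, mem_range.2 (by omega), le_rfl, hlt⟩
  · exact absurd h (hU a)

theorem le_most {U : ℕ → ℕ → Prop} (hU : Proper U) {T : ℕ} {S : Finset (ℕ × ℕ)}
    (hS : Disj U T S) : S.card ≤ most U T := by
  refine le_csSup ⟨(range T).card, ?_⟩ ⟨S, rfl, hS⟩
  rintro g ⟨S', rfl, hS'⟩
  exact card_le_of_points hS' (range T) fun a b h1 h2 h3 => point_of_proper hU a b h1 h2 h3

theorem exists_most {U : ℕ → ℕ → Prop} (hU : Proper U) (T : ℕ) :
    ∃ S : Finset (ℕ × ℕ), S.card = most U T ∧ Disj U T S := by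
  refine Nat.sSup_mem (s := {g | ∃ S : Finset (ℕ × ℕ), S.card = g ∧ Disj U T S})
    ⟨0, ∅, rfl, by simp [Disj]⟩ ⟨(range T).card, ?_⟩
  rintro g ⟨S', rfl, hS'⟩
  exact card_le_of_points hS' (range T) fun a b h1 h2 h3 => point_of_proper hU a b h1 h2 h3

theorem proper_unknown (C : Circ n) (X : ℕ → Fin n → Bool) :
    Proper fun a b => C.eval3 (span (X a) (X b)) = none := by
  intro a h
  rw [eval3_self] at h
  exact absurd h (by simp)

theorem unknowns_le (C : Circ n) (Z : ℕ → Fin n → Bool) (N : ℕ) (c : ℕ → ℕ)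
    (hc : ∀ j, c j ≤ c (j + 1)) (T : ℕ) (hcN : ∀ j, c j ≤ N) (Y : ℕ → Fin n → Bool)
    (hY : ∀ j ≤ T, Y j = Z (c j)) :
    unknowns C Y T ≤ most (fun a b => C.eval3 (span (Z a) (Z b)) = none) N := by
  classical
  have hmono : ∀ i j, i ≤ j → c i ≤ c j := by
    intro i j hij
    induction j, hij using Nat.le_induction with
    | base => exact le_rfl
    | succ j _ ih => exact ih.trans (hc j)
  set F := (Finset.range T).filter (fun j => C.eval3 (span (Y j) (Y (j + 1))) = none) with hF
  have hFu : ∀ j ∈ F, C.eval3 (span (Z (c j)) (Z (c (j + 1)))) = none := by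
    intro j hj
    rw [hF, Finset.mem_filter, Finset.mem_range] at hj
    rw [← hY j (by omega), ← hY (j + 1) (by omega)]
    exact hj.2
  have hlt : ∀ j ∈ F, c j < c (j + 1) := by
    intro j hj
    rcases (hc j).lt_or_eq with h | h
    · exact h
    · have := hFu j hj
      rw [h, eval3_self] at this
      exact absurd this (by simp)
  have hinj : Set.InjOn (fun j => (c j, c (j + 1))) F := by
    intro i hi j hj hij
    simp only [Prod.mk.injEq] at hij
    by_contra hne
    have h1 := hlt i hi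
    have h2 := hlt j hj
    rcases lt_or_gt_of_ne hne with h | h
    · have := hmono (i + 1) j h
      omega
    · have := hmono (j + 1) i h
      omega
  have h1 : unknowns C Y T = (F.image fun j => (c j, c (j + 1))).card := by
    rw [Finset.card_image_of_injOn hinj, hF]
    unfold unknowns
    congr
  rw [h1]
  refine le_most (proper_unknown C Z) ⟨?_, ?_⟩
  · intro p hp
    obtain ⟨j, hj, rfl⟩ := Finset.mem_image.1 hp
    exact ⟨hc j, hcN _, hFu j hj⟩
  · intro p hp q hq hne
    obtain ⟨i, hi, rfl⟩ := Finset.mem_image.1 hp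
    obtain ⟨j, hj, rfl⟩ := Finset.mem_image.1 hq
    have hij : i ≠ j := fun h => hne (by rw [h])
    rcases lt_or_gt_of_ne hij with h | h
    · left
      exact hmono (i + 1) j h
    · right
      exact hmono (j + 1) i h

/-- **Every chain is refined by an order of the variables.** -/
theorem exists_order (E : Finset (Fin n)) (z : Fin n → Bool) (Y : ℕ → Fin n → Bool)
    (hY : ∀ j a, Y j a = true → Y (j + 1) a = true) (hE : ∀ j a, a ∉ E → Y j a = z a)
    (T : ℕ) : ∃ π : Equiv.Perm (Fin n), ∀ C : Circ n, unknowns C Y T ≤ C.unknown E z π := by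
  classical
  have hmono : ∀ a i j, i ≤ j → Y i a = true → Y j a = true := by
    intro a i j hij
    induction j, hij using Nat.le_induction with
    | base => exact id
    | succ j _ ih => exact fun h => hY j a (ih h)
  let t : Fin n → ℕ := fun a => if h : ∃ j, Y j a = true then Nat.find h else T + 1
  have ht : ∀ a, ∀ j ≤ T, (Y j a = true ↔ t a ≤ j) := by
    intro a j hj
    simp only [t]
    split_ifs with h
    · constructor
      · intro h2
        exact Nat.find_min' h h2
      · intro h2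
        exact hmono a _ _ h2 (Nat.find_spec h)
    · constructor
      · intro h2
        exact absurd ⟨j, h2⟩ h
      · intro h2
        omega
  let τ : Equiv.Perm (Fin n) := Tuple.sort t
  have hτ : Monotone (t ∘ τ) := Tuple.monotone_sort t
  let c : ℕ → ℕ := fun j => (Finset.univ.filter fun i : Fin n => t (τ i) ≤ j).card
  have hc : ∀ j, ∀ i : Fin n, t (τ i) ≤ j ↔ (i : ℕ) < c j := by
    intro j i
    rw [← NA.mem_iff_lt_card (S := Finset.univ.filter fun i : Fin n => t (τ i) ≤ j)]
    · simp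
    · intro a b hab hb
      rw [Finset.mem_filter] at hb ⊢
      exact ⟨Finset.mem_univ _, (hτ hab).trans hb.2⟩
  have hcmono : ∀ j, c j ≤ c (j + 1) := by
    intro j
    refine Finset.card_le_card fun i hi => ?_
    rw [Finset.mem_filter] at hi ⊢
    exact ⟨hi.1, by omega⟩
  have hcn : ∀ j, c j ≤ n := by
    intro j
    refine (Finset.card_le_univ _).trans ?_
    rw [Fintype.card_fin]
  refine ⟨τ.symm, fun C => ?_⟩
  have hYf : ∀ j ≤ T, Y j = switch E z τ.symm (c j) := by
    intro j hj
    funext a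
    unfold switch
    split_ifs with ha
    · rw [Bool.eq_iff_iff, decide_eq_true_iff, ht a j hj]
      have := hc j (τ.symm a)
      rw [Equiv.apply_symm_apply] at this
      exact this
    · exact hE j a ha
  exact unknowns_le C (switch E z τ.symm) n c hcmono T hcn Y hYf

/-- from random chains to random orders -/
theorem to_orders (E : Finset (Fin n)) (z : Fin n → Bool)
    {Ω : Type} [Fintype Ω] (P : Ω → ℝ) (X : Ω → ℕ → Fin n → Bool)
    (hP0 : ∀ ω, 0 ≤ P ω) (hP1 : ∑ ω, P ω = 1)
    (hX : ∀ ω j i, X ω j i = true → X ω (j + 1) i = true)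
    (hE : ∀ ω j a, a ∉ E → X ω j a = z a) (T : ℕ) :
    ∃ P' : Equiv.Perm (Fin n) → ℝ, (∀ π, 0 ≤ P' π) ∧ ∑ π, P' π = 1 ∧
      ∀ C : Circ n, ∑ ω, P ω * (unknowns C (X ω) T : ℝ) ≤
        ∑ π, P' π * (C.unknown E z π : ℝ) := by
  classical
  choose π hπ using fun ω => exists_order E z (X ω) (hX ω) (hE ω) T
  have hsum : ∀ F : Equiv.Perm (Fin n) → ℝ,
      ∑ ρ, (∑ ω, if π ω = ρ then P ω else 0) * F ρ = ∑ ω, P ω * F (π ω) := by
    intro F
    simp only [Finset.sum_mul]
    rw [Finset.sum_comm]
    refine Finset.sum_congr rfl fun ω _ => ?_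
    rw [Finset.sum_eq_single (π ω)]
    · rw [if_pos rfl]
    · intro ρ _ hρ
      rw [if_neg (fun h => hρ h.symm), zero_mul]
    · intro h
      exact absurd (Finset.mem_univ _) h
  refine ⟨fun ρ => ∑ ω, if π ω = ρ then P ω else 0, ?_, ?_, ?_⟩
  · intro ρ
    refine Finset.sum_nonneg fun ω _ => ?_
    split_ifs
    · exact hP0 ω
    · exact le_rfl
  · have := hsum fun _ => 1
    simp only [mul_one] at this
    rw [this, hP1]
  · intro C
    rw [hsum fun ρ => (C.unknown E z ρ : ℝ)]
    refine Finset.sum_le_sum fun ω _ => ?_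
    refine mul_le_mul_of_nonneg_left ?_ (hP0 ω)
    exact_mod_cast hπ ω C

end Pool.Agent.V8H38.HZ
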