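import Pool.Agent.V8H38.HZ.Mono
import Pool.Agent.V8H38.HZ.Order
import Pool.Agent.V8H38.NA.Law

/-!
# The law: correctness is paid with unknown values
-/

set_option linter.unusedSectionVars false

namespace Pool.Agent.V8H38.HZ

open Finset
open Pool.Agent.V8H38.NA (one_scale wts upto upto_mono walk wts_nonneg sum_wts)
open Pool.Agent.V8H38.NL (NN NN_mono NN_const NN_add NN_smul NN_zero NN_succ NN_add_iter
  NN_le_one NN_nonneg ind ind_true ind_false ind_mono
  ind_le ind_le_one ind_nonneg small cnt cnt_eq cnt_mono cnt_or cnt_false cnt_nonneg inp inp_mono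
  EE EE_mono EE_const EE_nonneg EE_add EE_smul EE_fsum rare)

variable {V : Type} [Fintype V] [DecidableEq V]

/-- the expected number of unknown values along the chain of noise -/
noncomputable def Q {n : ℕ} (p : ℝ) (m r : ℕ) (σ : Fin n → Bool ⊕ V) (C : Circ n) : ℝ :=
  ∑ j ∈ Finset.range r,
    NN p (m * j) (fun x => NN p m (ind fun y => C.eval3 (span (inp σ x) (inp σ y)) = none) x) ∅

/-- **Insensitivity.** -/
theorem insensitive {W : Type} [Fintype W] [Nonempty W] (Γ : W → Finset V) {l m R q r s : ℕ}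
    (hl : 1 ≤ l) (hm : 1 ≤ m) (hR1 : 1 ≤ R) (hR : 8 * l * R ≤ q) (hr : 0 < r)
    (hs1 : 2 * (s * r) ≤ 2 ^ l) (hs2 : 4 * (s * r * (small V (2 * l)).card) ≤ 2 ^ m)
    (hΓ : ∀ S : Finset V, S.card ≤ 2 * l →
      (Finset.univ.filter fun w => S ⊆ Γ w).card * q ^ S.card ≤ Fintype.card W)
    {n : ℕ} (σ : Fin n → Bool ⊕ V) (C : Circ n) (hs : C.size ≤ s) :
    EE (1 / (R:ℝ)) m r (fun x => cnt (fun w =>
      ¬ (C.eval (inp σ x) = C.eval (inp σ (x ∪ Γ w)))) / Fintype.card W) ≤
      (2 * Q (1 / (R:ℝ)) m r σ C + 1) / r := by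
  classical
  set p : ℝ := 1 / (R:ℝ) with hp
  have hR0 : (0:ℝ) < R := by exact_mod_cast hR1
  have h0 : 0 < p := by positivity
  have h1 : p ≤ 1 := by
    rw [hp, div_le_one hR0]; exact_mod_cast hR1
  have hWpos : (0:ℝ) < Fintype.card W := by exact_mod_cast Fintype.card_pos
  have hrpos : (0:ℝ) < r := by exact_mod_cast hr
  set n₀ : ℝ := (((small V (2 * l)).card : ℕ) : ℝ) with hn₀
  have hn₀0 : 0 ≤ n₀ := Nat.cast_nonneg _
  set η : ℝ := s * ((1 / 2) ^ l + 2 * (n₀ * (1 / 2) ^ m)) with hη
  have hη0 : 0 ≤ η := by positivity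
  have hrη : r * η ≤ 1 := by
    have a1 : (2:ℝ) * (s * r) ≤ 2 ^ l := by exact_mod_cast hs1
    have a2 : (4:ℝ) * (s * r * n₀) ≤ 2 ^ m := by rw [hn₀]; exact_mod_cast hs2
    have b1 : (s * r : ℝ) * (1 / 2) ^ l ≤ 1 / 2 := by
      rw [one_div, inv_pow, ← div_eq_mul_inv, div_le_iff₀ (by positivity)]
      linarith
    have b2 : (s * r * n₀ : ℝ) * (1 / 2) ^ m ≤ 1 / 4 := by
      rw [one_div, inv_pow, ← div_eq_mul_inv, div_le_iff₀ (by positivity)]
      linarith
    have : r * η = (s * r : ℝ) * (1 / 2) ^ l + 2 * ((s * r * n₀ : ℝ) * (1 / 2) ^ m) := by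
      rw [hη]; ring
    rw [this]
    linarith
  set ch : Finset V → Finset V → ℝ := fun x => ind fun y =>
    C.eval3 (span (inp σ x) (inp σ y)) = none with hch
  set φ : Finset V → ℝ := fun x => cnt (fun w =>
      ¬ (C.eval (inp σ x) = C.eval (inp σ (x ∪ Γ w)))) / Fintype.card W with hφ
  -- pointwise inequality
  have point : ∀ x : Finset V, φ x ≤ 2 * NN p m (ch x) x + η := by
    intro x
    have e0 := one_scale Γ hl hm hR1 hR hΓ σ (trL (inp σ x) C.gates) (trL_any _ _)
      (trL_mono _ _) ((trL_size (inp σ x) C.gates).le.trans hs) {k | k = eye C (inp σ x)} x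
    have e1 : cnt (fun w => ¬ (C.eval (inp σ x) = C.eval (inp σ (x ∪ Γ w)))) ≤
        cnt (fun w => ∃ k ∈ {k | k = eye C (inp σ x)},
          0 < (NA.vals (inp σ (x ∪ Γ w)) (trL (inp σ x) C.gates)).getD k 0) := by
      refine cnt_mono fun w hw => ⟨_, rfl, ?_⟩
      rw [notice C (inp_mono σ Finset.subset_union_left)]
      by_contra h
      exact hw (eval_eq h)
    have e3 : NN p m (ind fun y => ∃ k ∈ {k | k = eye C (inp σ x)},
          0 < (NA.vals (inp σ y) (trL (inp σ x) C.gates)).getD k 0) x ≤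
        NN p m (ch x) x := by
      refine NN_mono h0.le h1 m fun y hy => ?_
      refine ind_le ?_
      rintro ⟨k, hk, h⟩
      rw [Set.mem_setOf_eq] at hk
      rw [hk, notice C (inp_mono σ hy)] at h
      exact h
    simp only [hφ]
    rw [div_le_iff₀ hWpos]
    refine e1.trans (e0.trans ?_)
    refine mul_le_mul_of_nonneg_right ?_ hWpos.le
    rw [hη, hn₀]
    linarith
  -- average over one scale
  have scale : ∀ j : ℕ, NN p (m * j) φ ∅ ≤
      2 * NN p (m * j) (fun x => NN p m (ch x) x) ∅ + η := by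
    intro j
    have e1 := NN_mono h0.le h1 (m * j) (x := ∅) (fun y _ => point y)
    refine e1.trans (le_of_eq ?_)
    rw [NN_add, NN_smul]
    simp only
    rw [NN_const]
  -- sum over all scales
  have total : ∀ k : ℕ, ∑ j ∈ Finset.range k, NN p (m * j) φ ∅ ≤
      2 * Q p m k σ C + k * η := by
    intro k
    induction k with
    | zero =>
      simp [Q]
    | succ k ih =>
      rw [Finset.sum_range_succ]
      refine (add_le_add ih (scale k)).trans (le_of_eq ?_)
      unfold Q
      rw [Finset.sum_range_succ]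
      push_cast
      ring
  unfold EE
  refine div_le_div_of_nonneg_right ?_ hrpos.le
  refine (total r).trans ?_
  linarith

/-- the expected number of unknown values, as a mean value over the random chains -/
theorem Q_le {n : ℕ} {p : ℝ} (h0 : 0 ≤ p) (h1 : p ≤ 1) {m r T : ℕ} (hT : r ≤ T)
    (σ : Fin n → Bool ⊕ V) (C : Circ n) :
    Q p m r σ C ≤ ∑ ω : Fin (m * r) → Finset V, wts p ω *
      unknowns C (fun j => inp σ (upto ω (m * min j r))) T := by
  classical
  have e1 : ∀ j ∈ Finset.range r,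
      NN p (m * j) (fun x => NN p m (ind fun y =>
        C.eval3 (span (inp σ x) (inp σ y)) = none) x) ∅ =
      ∑ ω : Fin (m * r) → Finset V, wts p ω *
        ind (fun y => C.eval3 (span (inp σ (upto ω (m * j))) (inp σ y)) = none)
          (upto ω (m * (j + 1))) := by
    intro j hj
    rw [Finset.mem_range] at hj
    have hle : m * j + m ≤ m * r := by
      calc m * j + m = m * (j + 1) := by ring
        _ ≤ m * r := Nat.mul_le_mul_left _ hj
    have := walk p (m * r) (m * j) m hle
      (fun x y => ind (fun y => C.eval3 (span (inp σ x) (inp σ y)) = none) y) (∅ : Finset V)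
    rw [show (fun x' : Finset V => NN p m
      ((fun x y => ind (fun y => C.eval3 (span (inp σ x) (inp σ y)) = none) y) x') x') =
      (fun x => NN p m (ind fun y => C.eval3 (span (inp σ x) (inp σ y)) = none) x) from rfl]
      at this
    rw [← this]
    refine Finset.sum_congr rfl fun ω _ => ?_
    rw [Finset.empty_union, Finset.empty_union, Nat.mul_succ]
  unfold Q
  rw [Finset.sum_congr rfl e1, Finset.sum_comm]
  refine Finset.sum_le_sum fun ω _ => ?_
  rw [← Finset.mul_sum]
  refine mul_le_mul_of_nonneg_left ?_ (wts_nonneg h0 h1 ω)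
  unfold unknowns
  rw [Finset.card_filter]
  push_cast
  refine le_trans (le_of_eq ?_) (Finset.sum_le_sum_of_subset_of_nonneg
    (Finset.range_mono hT) (fun j _ _ => by split_ifs <;> norm_num))
  refine Finset.sum_congr rfl fun j hj => ?_
  rw [Finset.mem_range] at hj
  rw [min_eq_left hj.le, min_eq_left (show j + 1 ≤ r from hj)]
  unfold ind
  by_cases h : C.eval3 (span (inp σ (upto ω (m * j))) (inp σ (upto ω (m * (j + 1))))) = none
  · rw [if_pos h, if_pos h]
  · rw [if_neg h, if_neg h]

/-- **The law, general form.** -/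
theorem core_avg {W : Type} [Fintype W] [Nonempty W] (Γ : W → Finset V) {l m R q r s M T : ℕ}
    (hl : 1 ≤ l) (hm : 1 ≤ m) (hR1 : 1 ≤ R) (hR : 8 * l * R ≤ q) (hrm : 2 * (r * m) ≤ R)
    (hr : 0 < r)
    (hs1 : 2 * (s * r) ≤ 2 ^ l) (hs2 : 4 * (s * r * (small V (2 * l)).card) ≤ 2 ^ m)
    (hW : r * Fintype.card W ≤ 2 ^ M) (hM : ∀ w, M ≤ (Γ w).card)
    (hΓ : ∀ S : Finset V, S.card ≤ 2 * l →
      (Finset.univ.filter fun w => S ⊆ Γ w).card * q ^ S.card ≤ Fintype.card W)
    (hT : r ≤ T) {n : ℕ} (σ : Fin n → Bool ⊕ V) :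
    ∃ (D : (Fin n → Bool) → ℝ) (Ω : Type) (_ : Fintype Ω) (P : Ω → ℝ)
      (X : Ω → ℕ → Fin n → Bool), (∀ x, 0 ≤ D x) ∧ ∑ x, D x = 1 ∧
      (∀ x, D x ≠ 0 → ∃ Z, x = inp σ Z) ∧ (∀ ω, 0 ≤ P ω) ∧
      ∑ ω, P ω = 1 ∧ (∀ ω j i, X ω j i = true → X ω (j + 1) i = true) ∧
      (∀ ω j, ∃ Z, X ω j = inp σ Z) ∧
      ∀ f : (Fin n → Bool) → Prop, (∀ X : Finset V, f (inp σ X) ↔ ∃ w, Γ w ⊆ X) →
      ∀ C : Circ n, C.size ≤ s →
        C.agree D f ≤ 1 / 2 + (1 + ∑ ω, P ω * unknowns C (X ω) T) / r := by
  classical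
  set p : ℝ := 1 / (R:ℝ) with hp
  have hR0 : (0:ℝ) < R := by exact_mod_cast hR1
  have h0 : 0 < p := by positivity
  have h1 : p ≤ 1 := by
    rw [hp, div_le_one hR0]; exact_mod_cast hR1
  have hWpos : (0:ℝ) < Fintype.card W := by exact_mod_cast Fintype.card_pos
  have hrpos : (0:ℝ) < r := by exact_mod_cast hr
  set ψ : (Fin n → Bool) → Finset V → ℝ := fun x y =>
    (1 / 2) * ((if inp σ y = x then 1 else 0) +
      (∑ w, (if inp σ (y ∪ Γ w) = x then (1:ℝ) else 0)) / Fintype.card W) with hψ
  have hψ0 : ∀ x y, 0 ≤ ψ x y := by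
    intro x y
    have : 0 ≤ ∑ w, (if inp σ (y ∪ Γ w) = x then (1:ℝ) else 0) :=
      Finset.sum_nonneg fun w _ => by split_ifs <;> norm_num
    simp only [hψ]
    have h3 : (0:ℝ) ≤ (if inp σ y = x then 1 else 0) := by split_ifs <;> norm_num
    positivity
  -- sums of the weights
  have hsum : ∀ (P : (Fin n → Bool) → Prop) [DecidablePred P],
      (∑ x, if P x then EE p m r (ψ x) else 0) =
        EE p m r (fun y => (1 / 2) * (ind (fun y => P (inp σ y)) y +
          cnt (fun w => P (inp σ (y ∪ Γ w))) / Fintype.card W)) := by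
    intro P _
    rw [← Finset.sum_filter, ← EE_fsum]
    congr 1
    funext y
    simp only [hψ]
    rw [← Finset.mul_sum, Finset.sum_add_distrib, ← Finset.sum_div]
    congr 2
    · rw [Finset.sum_filter, Finset.sum_eq_single (inp σ y)]
      · by_cases hP : P (inp σ y)
        · rw [if_pos hP, if_pos rfl, ind_true (P := fun y => P (inp σ y)) hP]
        · rw [if_neg hP, ind_false (P := fun y => P (inp σ y)) hP]
      · intro x _ hx
        have hx' : ¬ inp σ y = x := fun h => hx h.symm
        simp [hx']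
      · simp
    · congr 1
      rw [Finset.sum_comm, cnt_eq, Finset.card_filter]
      push_cast
      refine Finset.sum_congr rfl fun w _ => ?_
      rw [Finset.sum_filter, Finset.sum_eq_single (inp σ (y ∪ Γ w))]
      · simp
      · intro x _ hx
        have hx' : ¬ inp σ (y ∪ Γ w) = x := fun h => hx h.symm
        simp [hx']
      · simp
  have hD0 : ∀ x, 0 ≤ EE p m r (ψ x) := fun x => EE_nonneg h0.le h1 _ _ (hψ0 x)
  have hD1 : ∑ x, EE p m r (ψ x) = 1 := by
    have := hsum fun _ => True
    simp only [if_true] at this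
    rw [this]
    have h3 : (fun y : Finset V => (1 / 2 : ℝ) * (ind (fun _ => True) y +
        cnt (fun _ : W => True) / Fintype.card W)) = fun _ => 1 := by
      funext y
      rw [ind_true trivial, cnt_eq]
      simp only [Finset.filter_true, Finset.card_univ]
      rw [div_self hWpos.ne']
      norm_num
    rw [h3, EE_const _ _ hr]
  refine ⟨fun x => EE p m r (ψ x), Fin (m * r) → Finset V, inferInstance, wts p,
    fun ω j => inp σ (upto ω (m * min j r)), hD0, hD1, ?_, fun ω => wts_nonneg h0.le h1 ω,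
    sum_wts p _, ?_, fun ω j => ⟨_, rfl⟩, ?_⟩
  · intro x hx
    by_contra hne
    apply hx
    have : ψ x = fun _ => 0 := by
      funext y
      simp only [hψ]
      rw [if_neg (fun h => hne ⟨_, h.symm⟩), Finset.sum_eq_zero]
      · simp
      · intro w _
        rw [if_neg (fun h => hne ⟨_, h.symm⟩)]
    change EE p m r (ψ x) = 0
    rw [this, EE_const _ _ hr]
  · intro ω j i h
    refine inp_mono σ (upto_mono ω ?_) i h
    exact Nat.mul_le_mul_left _ (min_le_min_right _ (Nat.le_succ j))
  · intro f hf C hs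
    have hQ := Q_le h0.le h1 (m := m) hT σ C
    unfold Circ.agree
    rw [hsum]
    have ins := insensitive Γ hl hm hR1 hR hr hs1 hs2 hΓ σ C hs
    have rr := rare Γ hR1 hrm hr hW hM
    set φ : Finset V → ℝ := fun x => cnt (fun w =>
      ¬ (C.eval (inp σ x) = C.eval (inp σ (x ∪ Γ w)))) / Fintype.card W with hφ
    have key : ∀ y, (1 / 2 : ℝ) * (ind (fun y => (C.eval (inp σ y) = true ↔ f (inp σ y))) y +
        cnt (fun w => (C.eval (inp σ (y ∪ Γ w)) = true ↔ f (inp σ (y ∪ Γ w)))) /
          Fintype.card W) ≤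
        (1 / 2) * 1 + ((1 / 2) * φ y + (1 / 2) * ind (fun x => ∃ w, Γ w ⊆ x) y) := by
      intro y
      have a1 : ind (fun y => (C.eval (inp σ y) = true ↔ f (inp σ y))) y ≤
          (1 - ind (fun y => C.eval (inp σ y) = true) y) + ind (fun x => ∃ w, Γ w ⊆ x) y := by
        by_cases hfy : ∃ w, Γ w ⊆ y
        · rw [ind_true (P := fun x => ∃ w, Γ w ⊆ x) hfy]
          have := ind_le_one (fun y => C.eval (inp σ y) = true) y
          have := ind_le_one (fun y => (C.eval (inp σ y) = true ↔ f (inp σ y))) y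
          linarith
        · rw [ind_false (P := fun x => ∃ w, Γ w ⊆ x) hfy]
          by_cases hC : C.eval (inp σ y) = true
          · rw [ind_true (P := fun y => C.eval (inp σ y) = true) hC, ind_false]
            · norm_num
            · intro h
              exact hfy ((hf y).1 (h.1 hC))
          · rw [ind_false (P := fun y => C.eval (inp σ y) = true) hC]
            have := ind_le_one (fun y => (C.eval (inp σ y) = true ↔ f (inp σ y))) y
            linarith
      have a2 : cnt (fun w => (C.eval (inp σ (y ∪ Γ w)) = true ↔ f (inp σ (y ∪ Γ w)))) /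
          Fintype.card W ≤ ind (fun y => C.eval (inp σ y) = true) y + φ y := by
        rw [hφ]
        simp only
        rw [div_le_iff₀ hWpos, add_mul, div_mul_cancel₀ _ hWpos.ne']
        by_cases hC : C.eval (inp σ y) = true
        · rw [ind_true (P := fun y => C.eval (inp σ y) = true) hC, one_mul]
          have h3 := cnt_nonneg (fun w =>
            ¬ (C.eval (inp σ y) = C.eval (inp σ (y ∪ Γ w))))
          have h4 : cnt (fun w => (C.eval (inp σ (y ∪ Γ w)) = true ↔ f (inp σ (y ∪ Γ w)))) ≤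
              Fintype.card W := by
            rw [cnt_eq]
            exact_mod_cast Finset.card_le_univ _
          linarith
        · rw [ind_false (P := fun y => C.eval (inp σ y) = true) hC, zero_mul, zero_add]
          refine cnt_mono fun w hw => ?_
          have : f (inp σ (y ∪ Γ w)) := (hf _).2 ⟨w, Finset.subset_union_right⟩
          have h3 := hw.2 this
          exact fun h => hC (h.trans h3)
      linarith
    refine (EE_mono h0.le h1 m r key).trans ?_
    rw [EE_add, EE_add, EE_const _ _ hr, EE_smul, EE_smul]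
    have h3 : (2 * Q p m r σ C + 1) / r ≤
        (2 * (∑ ω : Fin (m * r) → Finset V, wts p ω *
          unknowns C (fun j => inp σ (upto ω (m * min j r))) T) + 1) / r :=
      div_le_div_of_nonneg_right (by linarith) hrpos.le
    have h4 : ∀ z : ℝ, (1:ℝ) / 2 * 1 + (1 / 2 * ((2 * z + 1) / r) + 1 / 2 * (1 / r)) =
        1 / 2 + (1 + z) / r := by
      intro z
      field_simp
      ring
    rw [← h4]
    have h5 := ins.trans h3
    linarith

end Pool.Agent.V8H38.HZ
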