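import Pool.Agent.V8H38.HZ.Tri
import Pool.Agent.V8H38.NA.Frz

/-!
# The three-valued evaluation above a fixed input is computed by a monotone circuit
-/

namespace Pool.Agent.V8H38.HZ

open Finset
open Pool.Agent.V8H38.NA (Node)

variable {n : ℕ}

/-- a bit as a real number -/
noncomputable def toR (b : Bool) : ℝ := if b = true then 1 else 0

/-- the number of the pair of nodes for node `a`, as read by the node number `k` -/
def ref (k a : ℕ) : ℕ := if a < k then a + 1 else 0

/-- the conjunction of the bits -/
noncomputable def both (s t : ℝ) : ℝ := if 0 < s ∧ 0 < t then 1 else 0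

/-- the two nodes for a gate: can the value be one, can it be zero? -/
noncomputable def tr (x : Fin n → Bool) (k : ℕ) : Gate n → Node n × Node n
  | Gate.input i => (Node.input i, Node.const (toR (!x i)))
  | Gate.const b => (Node.const (toR b), Node.const (toR (!b)))
  | Gate.neg a => (Node.sup 0 [2 * ref k a + 1], Node.sup 0 [2 * ref k a])
  | Gate.conj a b => (Node.gate both (2 * ref k a) (2 * ref k b),
      Node.sup 0 [2 * ref k a + 1, 2 * ref k b + 1])
  | Gate.disj a b => (Node.sup 0 [2 * ref k a, 2 * ref k b],
      Node.gate both (2 * ref k a + 1) (2 * ref k b + 1))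

/-- the nodes of the monotone circuit -/
noncomputable def trL (x : Fin n → Bool) (l : List (Gate n)) : List (Node n) :=
  [Node.const 0, Node.const 1] ++
    (l.mapIdx fun k g => [(tr x k g).1, (tr x k g).2]).flatten

theorem trL_append (x : Fin n → Bool) (l : List (Gate n)) (g : Gate n) :
    trL x (l ++ [g]) = (trL x l ++ [(tr x l.length g).1]) ++ [(tr x l.length g).2] := by
  unfold trL
  rw [List.mapIdx_append, List.flatten_append]
  simp

theorem toR_true : toR true = 1 := by simp [toR]

theorem toR_false : toR false = 0 := by simp [toR]

theorem toR_pos (b : Bool) : 0 < toR b ↔ b = true := by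
  cases b <;> simp [toR]

theorem toR_and (a b : Bool) : both (toR a) (toR b) = toR (a && b) := by
  cases a <;> cases b <;> simp [toR, both]

theorem toR_or (a b : Bool) : (toR a) ⊔ ((toR b) ⊔ 0) = toR (a || b) := by
  cases a <;> cases b <;> simp [toR]

theorem toR_one (a : Bool) : (toR a) ⊔ 0 = toR a := by
  cases a <;> simp [toR]

theorem tr_eval {x y : Fin n → Bool} (hxy : ∀ i, x i = true → y i = true) (k : ℕ) (g : Gate n)
    (v : ℕ → ℝ) (w : ℕ → Option Bool) (hw : ∀ a, k ≤ a → w a = some false)
    (hv0 : v 0 = 0) (hv1 : v 1 = 1)
    (hv : ∀ a < k, v (2 * (a + 1)) = toR (can1 (w a)) ∧ v (2 * (a + 1) + 1) = toR (can0 (w a))) :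
    (tr x k g).1.eval y v = toR (can1 (g.eval3 (span x y) w)) ∧
      (tr x k g).2.eval y v = toR (can0 (g.eval3 (span x y) w)) := by
  have href : ∀ a, v (2 * ref k a) = toR (can1 (w a)) ∧ v (2 * ref k a + 1) = toR (can0 (w a)) := by
    intro a
    unfold ref
    split_ifs with h
    · exact hv a h
    · rw [hw a (by omega)]
      simp only [mul_zero, zero_add, hv0, hv1, can1, can0, toR_true, toR_false, and_self]
  cases g with
  | input i =>
    simp only [tr, Node.eval, Gate.eval3, span]
    have := hxy i
    cases hx : x i <;> cases hy : y i <;> simp [hx, hy] at this ⊢ <;> simp [toR, can1, can0]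
  | const b =>
    simp only [tr, Node.eval, Gate.eval3]
    cases b <;> simp [toR, can1, can0]
  | neg a =>
    simp only [tr, Node.eval, Gate.eval3, List.foldr]
    rw [can1_not, can0_not, (href a).1, (href a).2, toR_one, toR_one]
    exact ⟨rfl, rfl⟩
  | conj a b =>
    simp only [tr, Node.eval, Gate.eval3, List.foldr]
    rw [can1_and, can0_and, (href a).1, (href a).2, (href b).1, (href b).2, toR_and, toR_or]
    exact ⟨rfl, rfl⟩
  | disj a b =>
    simp only [tr, Node.eval, Gate.eval3, List.foldr]
    rw [can1_or, can0_or, (href a).1, (href a).2, (href b).1, (href b).2, toR_and, toR_or]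
    exact ⟨rfl, rfl⟩

/-- the pairs of values -/
def W (x y : Fin n → Bool) (l : List (Gate n)) (k : ℕ) : Option Bool :=
  if k = 0 then some false else (vals3 (span x y) l).getD (k - 1) (some false)

theorem trL_vals {x y : Fin n → Bool} (hxy : ∀ i, x i = true → y i = true) (l : List (Gate n)) :
    (trL x l).length = 2 * (l.length + 1) ∧
    ∀ k ≤ l.length, (NA.vals y (trL x l)).getD (2 * k) 0 = toR (can1 (W x y l k)) ∧
      (NA.vals y (trL x l)).getD (2 * k + 1) 0 = toR (can0 (W x y l k)) := by
  induction l using List.reverseRecOn with
  | nil =>
    refine ⟨by simp [trL], fun k hk => ?_⟩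
    have : k = 0 := by simpa using hk
    subst this
    simp [trL, NA.vals, W, can1, can0, toR, NA.Node.eval]
  | append_singleton l g ih =>
    obtain ⟨ih1, ih2⟩ := ih
    rw [trL_append]
    have hlen : (trL x l ++ [(tr x l.length g).1]).length = 2 * (l.length + 1) + 1 := by
      rw [List.length_append, ih1]; rfl
    refine ⟨?_, fun k hk => ?_⟩
    · rw [List.length_append, hlen, List.length_append]
      simp only [List.length_singleton]
      omega
    rw [List.length_append, List.length_singleton] at hk
    have hWk : ∀ k ≤ l.length, W x y (l ++ [g]) k = W x y l k := by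
      intro k hk
      unfold W
      split_ifs with h
      · rfl
      · rw [vals3_append, List.getD_append _ _ _ _ (by rw [vals3_length]; omega)]
    -- the values read
    have hpre : ∀ j < 2 * (l.length + 1),
        (NA.vals y (trL x l ++ [(tr x l.length g).1])).getD j 0 = (NA.vals y (trL x l)).getD j 0 :=
      fun j hj => NA.vals_getD_append _ _ _ _ (by rw [ih1]; exact hj)
    have hpre2 : ∀ j < 2 * (l.length + 1),
        (NA.vals y ((trL x l ++ [(tr x l.length g).1]) ++ [(tr x l.length g).2])).getD j 0 =
          (NA.vals y (trL x l)).getD j 0 := by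
      intro j hj
      rw [NA.vals_getD_append _ _ _ _ (by rw [hlen]; omega), hpre j hj]
    rcases Nat.lt_or_ge l.length k with hk' | hk'
    · -- the new pair
      have hkl : k = l.length + 1 := by omega
      have hkey : ∀ v : ℕ → ℝ, (∀ j < 2 * (l.length + 1), v j = (NA.vals y (trL x l)).getD j 0) →
          (tr x l.length g).1.eval y v = toR (can1 (W x y (l ++ [g]) k)) ∧
          (tr x l.length g).2.eval y v = toR (can0 (W x y (l ++ [g]) k)) := by
        intro v hv
        have hW : W x y (l ++ [g]) k =
            g.eval3 (span x y) fun a => (vals3 (span x y) l).getD a (some false) := by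
          unfold W
          rw [if_neg (by omega), vals3_append,
            List.getD_append_right _ _ _ _ (by rw [vals3_length]; omega), vals3_length, hkl]
          simp
        rw [hW]
        refine tr_eval hxy l.length g v _ ?_ ?_ ?_ ?_
        · intro a ha
          rw [List.getD_eq_default _ _ (by rw [vals3_length]; exact ha)]
        · rw [hv 0 (by omega)]
          have := (ih2 0 (by omega)).1
          simp only [mul_zero] at this
          rw [this]
          simp [W, can1, toR]
        · rw [hv 1 (by omega)]
          have := (ih2 0 (by omega)).2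
          simp only [mul_zero, zero_add] at this
          rw [this]
          simp [W, can0, toR]
        · intro a ha
          rw [hv _ (by omega), hv _ (by omega), (ih2 (a + 1) (by omega)).1,
            (ih2 (a + 1) (by omega)).2]
          unfold W
          rw [if_neg (by omega)]
          simp
      constructor
      · rw [NA.vals_getD_append _ _ _ _ (by rw [hlen]; omega), NA.vals_append,
          List.getD_append_right _ _ _ _ (by rw [NA.vals_length, ih1]; omega), NA.vals_length, ih1,
          hkl]
        simp only [Nat.sub_self, List.getD_cons_zero]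
        rw [← hkl]
        exact (hkey _ fun j hj => rfl).1
      · rw [NA.vals_append, List.getD_append_right _ _ _ _ (by rw [NA.vals_length, hlen]; omega),
          NA.vals_length, hlen, hkl]
        simp only [Nat.sub_self, List.getD_cons_zero]
        rw [← hkl]
        exact (hkey _ fun j hj => hpre j hj).2
    · rw [hWk k hk', hpre2 _ (by omega), hpre2 _ (by omega)]
      exact ih2 k hk'

theorem trL_any (x : Fin n → Bool) (l : List (Gate n)) : ∀ g ∈ trL x l, g.isAny = false := by
  induction l using List.reverseRecOn with
  | nil =>
    intro g hg
    simp only [trL, List.mapIdx_nil, List.flatten_nil, List.append_nil, List.mem_cons,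
      List.not_mem_nil, or_false] at hg
    rcases hg with rfl | rfl <;> rfl
  | append_singleton l g ih =>
    intro h hh
    rw [trL_append, List.mem_append, List.mem_append, List.mem_singleton, List.mem_singleton] at hh
    rcases hh with (hh | rfl) | rfl
    · exact ih h hh
    · cases g <;> rfl
    · cases g <;> rfl

theorem both_mono (s s' t t' : ℝ) (h1 : s ≤ s') (h2 : t ≤ t') : both s t ≤ both s' t' := by
  unfold both
  split_ifs with h3 h4
  · exact le_rfl
  · exact absurd ⟨h3.1.trans_le h1, h3.2.trans_le h2⟩ h4
  · norm_num
  · exact le_rfl

theorem trL_mono (x : Fin n → Bool) (l : List (Gate n)) : ∀ g ∈ trL x l, g.Mono := by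
  induction l using List.reverseRecOn with
  | nil =>
    intro g hg
    simp only [trL, List.mapIdx_nil, List.flatten_nil, List.append_nil, List.mem_cons,
      List.not_mem_nil, or_false] at hg
    rcases hg with rfl | rfl <;> trivial
  | append_singleton l g ih =>
    intro h hh
    rw [trL_append, List.mem_append, List.mem_append, List.mem_singleton, List.mem_singleton] at hh
    rcases hh with (hh | rfl) | rfl
    · exact ih h hh
    · cases g
      case conj => exact fun s s' t t' h1 h2 => both_mono s s' t t' h1 h2
      all_goals trivial
    · cases g
      case disj => exact fun s s' t t' h1 h2 => both_mono s s' t t' h1 h2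
      all_goals trivial

theorem trL_size (x : Fin n → Bool) (l : List (Gate n)) :
    (trL x l).countP Node.isGate = l.countP Gate.isBin := by
  induction l using List.reverseRecOn with
  | nil => simp [trL, Node.isGate]
  | append_singleton l g ih =>
    rw [trL_append, List.countP_append, List.countP_append, List.countP_append, ih]
    cases g <;> simp [tr, Node.isGate, Gate.isBin, List.countP_cons]

/-- the watched node -/
def eye (C : Circ n) (x : Fin n → Bool) : ℕ :=
  if C.eval x = true then 2 * ref C.gates.length C.out + 1 else 2 * ref C.gates.length C.out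

/-- **The noticer.** -/
theorem notice (C : Circ n) {x y : Fin n → Bool} (hxy : ∀ i, x i = true → y i = true) :
    0 < (NA.vals y (trL x C.gates)).getD (eye C x) 0 ↔ C.eval3 (span x y) = none := by
  have hr : ref C.gates.length C.out ≤ C.gates.length := by
    unfold ref
    split_ifs with h
    · exact h
    · omega
  have hW : W x y C.gates (ref C.gates.length C.out) = C.eval3 (span x y) := by
    unfold Circ.eval3
    by_cases h : C.out < C.gates.length
    · have e : ref C.gates.length C.out = C.out + 1 := by
        unfold ref
        rw [if_pos h]
      rw [e]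
      unfold W
      rw [if_neg (by omega)]
      simp
    · have e : ref C.gates.length C.out = 0 := by
        unfold ref
        rw [if_neg h]
      rw [e, List.getD_eq_default _ _ (by rw [vals3_length]; omega)]
      rfl
  have h := (trL_vals hxy C.gates).2 _ hr
  rw [hW] at h
  have hc := eval_left C x y
  unfold eye
  split_ifs with hx
  · rw [h.2, toR_pos, none_iff]
    rw [hx] at hc
    rcases hc with hc | hc <;> rw [hc] <;> simp [can1, can0]
  · rw [h.1, toR_pos, none_iff]
    rw [Bool.not_eq_true] at hx
    rw [hx] at hc
    rcases hc with hc | hc <;> rw [hc] <;> simp [can1, can0]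

end Pool.Agent.V8H38.HZ
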