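import Pool.Agent.V8H38.HZ.Defs
import Pool.Agent.V8H38.NA.DefsL

/-!
# Three-valued evaluation: soundness, and computation by monotone circuits
-/

namespace Pool.Agent.V8H38.HZ

open Finset

variable {n : ℕ}

/-- can the value be one? -/
def can1 : Option Bool → Bool
  | some false => false
  | _ => true

/-- can the value be zero? -/
def can0 : Option Bool → Bool
  | some true => false
  | _ => true

theorem none_iff (o : Option Bool) : o = none ↔ can1 o = true ∧ can0 o = true := by
  rcases o with _ | (_ | _) <;> simp [can1, can0]

theorem can1_not (a : Option Bool) : can1 (not3 a) = can0 a := by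
  rcases a with _ | (_ | _) <;> rfl

theorem can0_not (a : Option Bool) : can0 (not3 a) = can1 a := by
  rcases a with _ | (_ | _) <;> rfl

theorem can1_and (a b : Option Bool) : can1 (and3 a b) = (can1 a && can1 b) := by
  rcases a with _ | (_ | _) <;> rcases b with _ | (_ | _) <;> rfl

theorem can0_and (a b : Option Bool) : can0 (and3 a b) = (can0 a || can0 b) := by
  rcases a with _ | (_ | _) <;> rcases b with _ | (_ | _) <;> rfl

theorem can1_or (a b : Option Bool) : can1 (or3 a b) = (can1 a || can1 b) := by
  rcases a with _ | (_ | _) <;> rcases b with _ | (_ | _) <;> rfl

theorem can0_or (a b : Option Bool) : can0 (or3 a b) = (can0 a && can0 b) := by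
  rcases a with _ | (_ | _) <;> rcases b with _ | (_ | _) <;> rfl

/-! ### lists -/

theorem vals_append (x : Fin n → Bool) (l : List (Gate n)) (g : Gate n) :
    vals x (l ++ [g]) = vals x l ++ [g.eval x fun k => (vals x l).getD k false] := by
  unfold vals
  rw [List.foldl_append]
  rfl

theorem vals3_append (t : Fin n → Option Bool) (l : List (Gate n)) (g : Gate n) :
    vals3 t (l ++ [g]) = vals3 t l ++ [g.eval3 t fun k => (vals3 t l).getD k (some false)] := by
  unfold vals3
  rw [List.foldl_append]
  rfl

theorem vals_length (x : Fin n → Bool) (l : List (Gate n)) : (vals x l).length = l.length := by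
  induction l using List.reverseRecOn with
  | nil => rfl
  | append_singleton l g ih => rw [vals_append, List.length_append, List.length_append, ih]; rfl

theorem vals3_length (t : Fin n → Option Bool) (l : List (Gate n)) :
    (vals3 t l).length = l.length := by
  induction l using List.reverseRecOn with
  | nil => rfl
  | append_singleton l g ih => rw [vals3_append, List.length_append, List.length_append, ih]; rfl

/-! ### soundness -/

/-- the three-valued value is correct for the value `b` -/
def Cor (o : Option Bool) (b : Bool) : Prop := o = none ∨ o = some b

theorem cor_gate {t : Fin n → Option Bool} {w : Fin n → Bool} (h : ∀ i, Cor (t i) (w i))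
    {v3 : ℕ → Option Bool} {v : ℕ → Bool} (hv : ∀ k, Cor (v3 k) (v k)) (g : Gate n) :
    Cor (g.eval3 t v3) (g.eval w v) := by
  cases g with
  | input i => exact h i
  | const b => exact Or.inr rfl
  | neg a =>
    rcases hv a with ha | ha
    · left; simp only [Gate.eval3, ha, not3]
    · right; simp only [Gate.eval3, ha, not3, Gate.eval]
  | conj a b =>
    unfold Cor
    simp only [Gate.eval3, Gate.eval]
    rcases hv a with ha | ha <;> rcases hv b with hb | hb <;> rw [ha, hb]
    · left; rfl
    · cases v b
      · right; simp [and3]
      · left; rfl
    · cases v a
      · right; simp [and3]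
      · left; rfl
    · right
      cases v a <;> cases v b <;> rfl
  | disj a b =>
    unfold Cor
    simp only [Gate.eval3, Gate.eval]
    rcases hv a with ha | ha <;> rcases hv b with hb | hb <;> rw [ha, hb]
    · left; rfl
    · cases v b
      · left; rfl
      · right; simp [or3]
    · cases v a
      · left; rfl
      · right; simp [or3]
    · right
      cases v a <;> cases v b <;> rfl

theorem cor_vals {t : Fin n → Option Bool} {w : Fin n → Bool} (h : ∀ i, Cor (t i) (w i))
    (l : List (Gate n)) (k : ℕ) : Cor ((vals3 t l).getD k (some false)) ((vals w l).getD k false) := by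
  induction l using List.reverseRecOn generalizing k with
  | nil => exact Or.inr rfl
  | append_singleton l g ih =>
    rw [vals3_append, vals_append]
    rcases lt_trichotomy k l.length with hk | hk | hk
    · rw [List.getD_append _ _ _ _ (by rw [vals3_length]; exact hk),
        List.getD_append _ _ _ _ (by rw [vals_length]; exact hk)]
      exact ih k
    · rw [List.getD_append_right _ _ _ _ (by rw [vals3_length]; omega),
        List.getD_append_right _ _ _ _ (by rw [vals_length]; omega), vals3_length, vals_length, hk]
      simp only [Nat.sub_self, List.getD_cons_zero]
      exact cor_gate h ih g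
    · rw [List.getD_eq_default _ _ (by rw [List.length_append, vals3_length]; simpa using hk),
        List.getD_eq_default _ _ (by rw [List.length_append, vals_length]; simpa using hk)]
      exact Or.inr rfl

theorem cor_span_left (x y : Fin n → Bool) (i : Fin n) : Cor (span x y i) (x i) := by
  unfold span Cor
  split_ifs <;> simp

theorem cor_span_right (x y : Fin n → Bool) (i : Fin n) : Cor (span x y i) (y i) := by
  unfold span Cor
  split_ifs with h
  · right; rw [h]
  · left; rfl

theorem eval_left (C : Circ n) (x y : Fin n → Bool) : Cor (C.eval3 (span x y)) (C.eval x) :=
  cor_vals (cor_span_left x y) _ _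

theorem eval_right (C : Circ n) (x y : Fin n → Bool) : Cor (C.eval3 (span x y)) (C.eval y) :=
  cor_vals (cor_span_right x y) _ _

/-- **Soundness.** If the output is known on the span then it is the same for both inputs. -/
theorem eval_eq {C : Circ n} {x y : Fin n → Bool} (h : C.eval3 (span x y) ≠ none) :
    C.eval x = C.eval y := by
  rcases eval_left C x y with h1 | h1
  · exact absurd h1 h
  · rcases eval_right C x y with h2 | h2
    · exact absurd h2 h
    · rw [h1] at h2
      exact Option.some.inj h2

theorem span_self (x : Fin n → Bool) : span x x = fun i => some (x i) := by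
  funext i
  simp [span]

theorem known_gate {w : Fin n → Bool} {v3 : ℕ → Option Bool} {v : ℕ → Bool}
    (hv : ∀ k, v3 k = some (v k)) (g : Gate n) :
    g.eval3 (fun i => some (w i)) v3 = some (g.eval w v) := by
  cases g with
  | input i => rfl
  | const b => rfl
  | neg a => simp only [Gate.eval3, hv, not3, Gate.eval]
  | conj a b =>
    simp only [Gate.eval3, Gate.eval, hv]
    cases v a <;> cases v b <;> rfl
  | disj a b =>
    simp only [Gate.eval3, Gate.eval, hv]
    cases v a <;> cases v b <;> rfl

theorem known_vals (w : Fin n → Bool) (l : List (Gate n)) (k : ℕ) :
    (vals3 (fun i => some (w i)) l).getD k (some false) = some ((vals w l).getD k false) := by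
  induction l using List.reverseRecOn generalizing k with
  | nil => rfl
  | append_singleton l g ih =>
    rw [vals3_append, vals_append]
    rcases lt_trichotomy k l.length with hk | hk | hk
    · rw [List.getD_append _ _ _ _ (by rw [vals3_length]; exact hk),
        List.getD_append _ _ _ _ (by rw [vals_length]; exact hk)]
      exact ih k
    · rw [List.getD_append_right _ _ _ _ (by rw [vals3_length]; omega),
        List.getD_append_right _ _ _ _ (by rw [vals_length]; omega), vals3_length, vals_length, hk]
      simp only [Nat.sub_self, List.getD_cons_zero]
      exact known_gate ih g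
    · rw [List.getD_eq_default _ _ (by rw [List.length_append, vals3_length]; simpa using hk),
        List.getD_eq_default _ _ (by rw [List.length_append, vals_length]; simpa using hk)]

theorem eval3_self (C : Circ n) (x : Fin n → Bool) : C.eval3 (span x x) = some (C.eval x) := by
  rw [span_self]
  exact known_vals x _ _

end Pool.Agent.V8H38.HZ
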